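import Pool.Agent.Helper52.FQ.Pw
import Pool.Agent.Helper45.FQ.Lat2

/-!
# Project FQ (MP_0f6f3f_an), layer D: integration over the group

`jf v0 k w l n m = ∫∫ ⟪v0, A0(a(w^m, z)) k(a(w^n, x) l a(w^m, z))⟫ dz dx` is the integral over `g ∈ G1` of `⟪1_{a(g, ·) = l} v0, kk k w g n m⟫` (`jf_eq`). So its square averages converge to `0` if almost all
`g ∈ G1` are of the form `p l q` (`jf_tendsto`).
-/

set_option autoImplicit false
set_option linter.unusedSectionVars false

open MeasureTheory Filter Topology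
open scoped ENNReal

namespace Pool.Agent.Helper52.FQ

open Pool.Agent.Helper84 Pool.Agent.Helper84.GN Pool.Agent.Helper84.GN.S3 Pool.Agent.Helper84.GN.S3.X
open Pool.Agent.Helper84.NI Pool.Agent.Helper84.GVN Pool.Agent.Helper90.RK
open Pool.Agent.Helper96.RK Pool.Agent.Helper66.FR Pool.Agent.Helper84.FR Pool.Agent.Helper55.FR
open Pool.Agent.Helper45.FQ (HC)

variable {G1 X Λ H : Type} [Group G1] [TopologicalSpace G1] [IsTopologicalGroup G1] [SecondCountableTopology G1] [LocallyCompactSpace G1]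
  [MeasurableSpace G1] [BorelSpace G1] [MeasurableSpace X] [MulAction G1 X]
  [MeasurableConstSMul G1 X] [Group Λ] [Countable Λ] {μ : Measure X} [SMulInvariantMeasure G1 X μ]
  [IsProbabilityMeasure μ] {a : Cocy G1 X Λ} [NormedAddCommGroup H] [InnerProductSpace ℂ H] [CompleteSpace H]
  {A0 : Λ →* (H ≃ₗᵢ[ℂ] H)} {k : Λ → H} {C : ℝ} {w : G1} {j : Λ →* G1} {hm : Measure G1} {σ : X → G1}

/-- The integral. -/
noncomputable def jf (μ : Measure X) (a : Cocy G1 X Λ) (A0 : Λ →* (H ≃ₗᵢ[ℂ] H)) (v0 : H) (k : Λ → H) (w : G1) (l : Λ) (n m : ℕ) : ℂ :=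
  ∫ x, ∫ z, inner ℂ v0 (A0 (a.a (w ^ m) z) (k (a.a (w ^ n) x * l * a.a (w ^ m) z))) ∂μ ∂μ

/-- The section separates. -/
def Unq (j : Λ →* G1) (σ : X → G1) : Prop := ∀ (x y : X) (l l' : Λ), σ x * j l = σ y * j l' → x = y ∧ l = l'

section Fib

theorem meas_fib (h : HC μ a.a j hm σ) (l : Λ) : MeasurableSet {p : G1 × X | a.a p.1 (p.1⁻¹ • p.2) = l} := by
  have h1 : Measurable fun p : G1 × X => (p.1, p.1⁻¹ • p.2) :=
    measurable_fst.prodMk (h.act.comp ((measurable_inv.comp measurable_fst).prodMk measurable_snd))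
  exact h1 (h.ma l)

theorem meas_fibx (h : HC μ a.a j hm σ) (l : Λ) (x : X) : MeasurableSet {g : G1 | a.a g (g⁻¹ • x) = l} :=
  (measurable_id.prodMk measurable_const : Measurable fun g : G1 => (g, x)) (meas_fib h l)

/-- The fibres of the cocycle, as an equality of measures. -/
theorem map_fib (h : HC μ a.a j hm σ) (l : Λ) (x : X) :
    Measure.map (fun y => σ x * j l * (σ y)⁻¹) μ = hm.restrict {g : G1 | a.a g (g⁻¹ • x) = l} := by
  have hs : Measurable fun y => σ x * j l * (σ y)⁻¹ := (measurable_const_mul _).comp (measurable_inv.comp h.ms)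
  ext B hB
  rw [Measure.map_apply hs hB, Measure.restrict_apply hB]
  have h1 := h.fib x l (B.indicator 1) (measurable_one.indicator hB)
  have e1 : ∀ y, B.indicator (1 : G1 → ℝ≥0∞) (σ x * j l * (σ y)⁻¹) = ((fun y => σ x * j l * (σ y)⁻¹) ⁻¹' B).indicator 1 y := fun y => rfl
  have e2 : ∀ g, {g : G1 | a.a g (g⁻¹ • x) = l}.indicator (B.indicator (1 : G1 → ℝ≥0∞)) g = (B ∩ {g : G1 | a.a g (g⁻¹ • x) = l}).indicator 1 g := by
    intro g
    rw [Set.indicator_indicator, Set.inter_comm]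
  rw [lintegral_congr e2, lintegral_congr e1, lintegral_indicator_one (hB.inter (meas_fibx h l x)), lintegral_indicator_one (hs hB)] at h1
  exact h1.symm

theorem hm_fib (h : HC μ a.a j hm σ) (l : Λ) (x : X) : hm {g : G1 | a.a g (g⁻¹ • x) = l} = 1 := by
  have h1 := congrArg (fun ν : Measure G1 => ν Set.univ) (map_fib h l x)
  have hs : Measurable fun y => σ x * j l * (σ y)⁻¹ := (measurable_const_mul _).comp (measurable_inv.comp h.ms)
  simp only [Measure.map_apply hs MeasurableSet.univ, Set.preimage_univ, measure_univ, Measure.restrict_apply MeasurableSet.univ,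
    Set.univ_inter] at h1
  exact h1.symm

/-- Integrals over the fibres. -/
theorem integral_fib (h : HC μ a.a j hm σ) (hU : Unq j σ) (l : Λ) (x : X) (Ψ : X → ℂ) (hΨ : Measurable Ψ) :
    ∫ g, {g : G1 | a.a g (g⁻¹ • x) = l}.indicator (fun g => Ψ (g⁻¹ • x)) g ∂hm = ∫ y, Ψ y ∂μ := by
  have hs : Measurable fun y => σ x * j l * (σ y)⁻¹ := (measurable_const_mul _).comp (measurable_inv.comp h.ms)
  have hg : Measurable fun g : G1 => Ψ (g⁻¹ • x) :=
    hΨ.comp (h.act.comp (measurable_inv.prodMk measurable_const))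
  rw [integral_indicator (meas_fibx h l x), ← map_fib h l x, integral_map hs.aemeasurable hg.aestronglyMeasurable]
  refine integral_congr_ae (ae_of_all _ fun y => ?_)
  have h1 := h.coc (σ x * j l * (σ y)⁻¹) y
  rw [inv_mul_cancel_right] at h1
  have h2 := (hU _ _ _ _ h1).1
  have h3 : (σ x * j l * (σ y)⁻¹)⁻¹ • x = y := inv_smul_eq_iff.2 h2
  show Ψ ((σ x * j l * (σ y)⁻¹)⁻¹ • x) = Ψ y
  rw [h3]

end Fib

section Fub

/-- The integrand. -/
noncomputable def fi (a : Cocy G1 X Λ) (A0 : Λ →* (H ≃ₗᵢ[ℂ] H)) (v0 : H) (k : Λ → H) (w : G1) (l : Λ) (n m : ℕ) (x y : X) : ℂ :=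
  inner ℂ v0 (A0 (a.a (w ^ m) ((w ^ m)⁻¹ • y)) (k (a.a (w ^ n) x * l * a.a (w ^ m) ((w ^ m)⁻¹ • y))))

/-- The integrand on `G1 × X`. -/
noncomputable def fg (a : Cocy G1 X Λ) (A0 : Λ →* (H ≃ₗᵢ[ℂ] H)) (v0 : H) (k : Λ → H) (w : G1) (l : Λ) (n m : ℕ) (p : G1 × X) : ℂ :=
  {p : G1 × X | a.a p.1 (p.1⁻¹ • p.2) = l}.indicator (fun p => fi a A0 v0 k w l n m p.2 (p.1⁻¹ • p.2)) p

variable {v0 : H} {l : Λ} {n m : ℕ}

theorem norm_fi_le (hk : ∀ l, ‖k l‖ ≤ C) (x y : X) : ‖fi a A0 v0 k w l n m x y‖ ≤ ‖v0‖ * C := by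
  rw [fi]
  refine (norm_inner_le_norm _ _).trans (mul_le_mul_of_nonneg_left ?_ (norm_nonneg _))
  rw [LinearIsometryEquiv.norm_map]
  exact hk _

theorem meas_fi : Measurable fun p : X × X => fi a A0 v0 k w l n m p.1 p.2 := by
  let mΛ : MeasurableSpace Λ := ⊤
  have hd : DiscreteMeasurableSpace Λ := ⟨fun _ => trivial⟩
  have h1 : Measurable (a.a (w ^ n)) := measurable_to_countable' fun l => a.meas (w ^ n) l
  have h2 : Measurable (a.a (w ^ m)) := measurable_to_countable' fun l => a.meas (w ^ m) l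
  have h3 : Measurable fun p : X × X => (a.a (w ^ n) p.1, a.a (w ^ m) ((w ^ m)⁻¹ • p.2)) :=
    (h1.comp measurable_fst).prodMk (h2.comp ((measurable_const_smul (w ^ m)⁻¹).comp measurable_snd))
  have h4 : Measurable fun c : Λ × Λ => (inner ℂ v0 (A0 c.2 (k (c.1 * l * c.2))) : ℂ) := measurable_of_countable _
  exact h4.comp h3

theorem meas_fg (h : HC μ a.a j hm σ) : Measurable (fg a A0 v0 k w l n m) := by
  refine Measurable.indicator ?_ (meas_fib h l)
  exact (meas_fi (a := a) (A0 := A0)).comp (measurable_snd.prodMk (h.act.comp ((measurable_inv.comp measurable_fst).prodMk measurable_snd)))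

theorem sigma_hm (h : HC μ a.a j hm σ) : SigmaFinite hm := by
  have := h.haar
  infer_instance

theorem meas_S (h : HC μ a.a j hm σ) (l : Λ) : (hm.prod μ) {p : G1 × X | a.a p.1 (p.1⁻¹ • p.2) = l} = 1 := by
  have := sigma_hm h
  rw [Measure.prod_apply_symm (meas_fib h l)]
  have e : ∀ x : X, hm ((fun g => (g, x)) ⁻¹' {p : G1 × X | a.a p.1 (p.1⁻¹ • p.2) = l}) = 1 := fun x => hm_fib h l x
  rw [lintegral_congr e, lintegral_one, measure_univ]

theorem int_fg (h : HC μ a.a j hm σ) (hk : ∀ l, ‖k l‖ ≤ C) : Integrable (fg a A0 v0 k w l n m) (hm.prod μ) := by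
  have h1 : Integrable ({p : G1 × X | a.a p.1 (p.1⁻¹ • p.2) = l}.indicator fun _ => ‖v0‖ * C) (hm.prod μ) := by
    rw [integrable_indicator_iff (meas_fib h l)]
    refine integrableOn_const ?_
    rw [meas_S h l]
    exact ENNReal.one_ne_top
  refine h1.mono' (meas_fg h).aestronglyMeasurable (ae_of_all _ fun p => ?_)
  unfold fg
  by_cases hp : p ∈ {p : G1 × X | a.a p.1 (p.1⁻¹ • p.2) = l}
  · rw [Set.indicator_of_mem hp, Set.indicator_of_mem hp]
    exact norm_fi_le hk _ _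
  · rw [Set.indicator_of_notMem hp, Set.indicator_of_notMem hp, norm_zero]

/-- The integrals over `X`. -/
noncomputable def fF (μ : Measure X) (a : Cocy G1 X Λ) (A0 : Λ →* (H ≃ₗᵢ[ℂ] H)) (v0 : H) (k : Λ → H) (w : G1) (l : Λ) (n m : ℕ) (g : G1) : ℂ :=
  ∫ x, fg a A0 v0 k w l n m (g, x) ∂μ

theorem jf_eq (h : HC μ a.a j hm σ) (hU : Unq j σ) (hk : ∀ l, ‖k l‖ ≤ C) :
    ∫ g, fF μ a A0 v0 k w l n m g ∂hm = jf μ a A0 v0 k w l n m := by
  have := sigma_hm h
  have e0 : ∫ g, fF μ a A0 v0 k w l n m g ∂hm = ∫ x, ∫ g, fg a A0 v0 k w l n m (g, x) ∂hm ∂μ :=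
    integral_integral_swap (f := fun g x => fg a A0 v0 k w l n m (g, x)) (int_fg h hk)
  rw [e0, jf]
  refine integral_congr_ae (ae_of_all _ fun x => ?_)
  have hm1 : Measurable fun y => fi a A0 v0 k w l n m x y := (meas_fi (a := a) (A0 := A0)).comp (measurable_const.prodMk measurable_id)
  have h1 := integral_fib h hU l x (fun y => fi a A0 v0 k w l n m x y) hm1
  have h2 : ∫ y, fi a A0 v0 k w l n m x y ∂μ = ∫ z, fi a A0 v0 k w l n m x (w ^ m • z) ∂μ := by
    rw [← (measurePreserving_smul (w ^ m) μ).map_eq, integral_map (measurable_const_smul (w ^ m)).aemeasurable,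
      (measurePreserving_smul (w ^ m) μ).map_eq]
    rw [(measurePreserving_smul (w ^ m) μ).map_eq]
    exact hm1.aestronglyMeasurable
  show ∫ g, fg a A0 v0 k w l n m (g, x) ∂hm = _
  have h3 : ∫ g, fg a A0 v0 k w l n m (g, x) ∂hm = ∫ y, fi a A0 v0 k w l n m x y ∂μ := h1
  rw [h3, h2]
  refine integral_congr_ae (ae_of_all _ fun z => ?_)
  show fi a A0 v0 k w l n m x (w ^ m • z) = _
  rw [fi, inv_smul_smul]

theorem int_fF (h : HC μ a.a j hm σ) (hk : ∀ l, ‖k l‖ ≤ C) : Integrable (fF μ a A0 v0 k w l n m) hm := by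
  have := sigma_hm h
  exact (int_fg h hk).integral_prod_left

/-- The vector `1_{a(g, ·) = l} v0`. -/
noncomputable def eg (μ : Measure X) [IsProbabilityMeasure μ] (a : Cocy G1 X Λ) (v0 : H) (l : Λ) (g : G1) : XL μ H := xE μ H {y | a.a g y = l} (cst μ v0)

theorem fF_eq (hk : ∀ l, ‖k l‖ ≤ C) (g : G1) :
    fF μ a A0 v0 k w l n m g = inner ℂ (eg μ a v0 l g) (kk μ a A0 k w g n m) := by
  have hml : MeasurableSet {y | a.a g y = l} := a.meas g l
  have hm1 : Measurable fun y => {y | a.a g y = l}.indicator (fun y => fi a A0 v0 k w l n m (g • y) y) y := by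
    refine Measurable.indicator ?_ hml
    exact (meas_fi (a := a) (A0 := A0)).comp ((measurable_const_smul g).prodMk measurable_id)
  have h1 : fF μ a A0 v0 k w l n m g = ∫ y, {y | a.a g y = l}.indicator (fun y => fi a A0 v0 k w l n m (g • y) y) y ∂μ := by
    have e : ∫ y, {y | a.a g y = l}.indicator (fun y => fi a A0 v0 k w l n m (g • y) y) y ∂μ =
        ∫ x, {y | a.a g y = l}.indicator (fun y => fi a A0 v0 k w l n m (g • y) y) (g⁻¹ • x) ∂μ := by
      rw [← (measurePreserving_smul g⁻¹ μ).map_eq, integral_map (measurable_const_smul g⁻¹).aemeasurable,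
        (measurePreserving_smul g⁻¹ μ).map_eq]
      rw [(measurePreserving_smul g⁻¹ μ).map_eq]
      exact hm1.aestronglyMeasurable
    rw [e, fF]
    refine integral_congr_ae (ae_of_all _ fun x => ?_)
    show {p : G1 × X | a.a p.1 (p.1⁻¹ • p.2) = l}.indicator (fun p => fi a A0 v0 k w l n m p.2 (p.1⁻¹ • p.2)) (g, x) =
      {y | a.a g y = l}.indicator (fun y => fi a A0 v0 k w l n m (g • y) y) (g⁻¹ • x)
    by_cases hx : a.a g (g⁻¹ • x) = l
    · rw [Set.indicator_of_mem (show (g, x) ∈ {p : G1 × X | a.a p.1 (p.1⁻¹ • p.2) = l} from hx),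
        Set.indicator_of_mem (show g⁻¹ • x ∈ {y | a.a g y = l} from hx), smul_inv_smul]
    · rw [Set.indicator_of_notMem (show (g, x) ∉ {p : G1 × X | a.a p.1 (p.1⁻¹ • p.2) = l} from hx),
        Set.indicator_of_notMem (show g⁻¹ • x ∉ {y | a.a g y = l} from hx)]
  rw [h1, xl_inner]
  refine integral_congr_ae ?_
  filter_upwards [xE_apply hml (cst μ v0 : XL μ H), cst_apply (μ := μ) v0, vg_apply a A0 (w ^ m) (kv μ a k (w ^ n * g * w ^ m)),
    (measurePreserving_smul (w ^ m)⁻¹ μ).quasiMeasurePreserving.ae (kv_apply (μ := μ) (a := a) hk (w ^ n * g * w ^ m))] with y e1 e2 e3 e4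
  rw [eg, e1, kk, e3, e4, e2]
  by_cases hy : a.a g y = l
  · rw [Set.indicator_of_mem (show y ∈ {y | a.a g y = l} from hy), Set.indicator_of_mem (show y ∈ {y | a.a g y = l} from hy), one_smul, fi]
    have h3 : a.a (w ^ n * g * w ^ m) ((w ^ m)⁻¹ • y) = a.a (w ^ n) (g • y) * l * a.a (w ^ m) ((w ^ m)⁻¹ • y) := by
      rw [a.mul, a.mul, smul_inv_smul, hy]
    rw [h3]
  · rw [Set.indicator_of_notMem (show y ∉ {y | a.a g y = l} from hy), Set.indicator_of_notMem (show y ∉ {y | a.a g y = l} from hy), zero_smul,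
      inner_zero_left]

theorem norm_fF_le (hk : ∀ l, ‖k l‖ ≤ C) (g : G1) :
    ‖fF μ a A0 v0 k w l n m g‖ ≤ ‖v0‖ * C * (μ {x | a.a g (g⁻¹ • x) = l}).toReal := by
  have hml : MeasurableSet {x | a.a g (g⁻¹ • x) = l} := (measurable_const_smul g⁻¹) (a.meas g l)
  have h1 : ∀ x, ‖fg a A0 v0 k w l n m (g, x)‖ ≤ {x | a.a g (g⁻¹ • x) = l}.indicator (fun _ => ‖v0‖ * C) x := by
    intro x
    unfold fg
    by_cases hx : a.a g (g⁻¹ • x) = l
    · rw [Set.indicator_of_mem (show (g, x) ∈ {p : G1 × X | a.a p.1 (p.1⁻¹ • p.2) = l} from hx),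
        Set.indicator_of_mem (show x ∈ {x | a.a g (g⁻¹ • x) = l} from hx)]
      exact norm_fi_le hk _ _
    · rw [Set.indicator_of_notMem (show (g, x) ∉ {p : G1 × X | a.a p.1 (p.1⁻¹ • p.2) = l} from hx),
        Set.indicator_of_notMem (show x ∉ {x | a.a g (g⁻¹ • x) = l} from hx), norm_zero]
  rw [fF]
  refine (norm_integral_le_of_norm_le ((integrable_const _).indicator hml) (ae_of_all _ h1)).trans (le_of_eq ?_)
  rw [integral_indicator hml, integral_const, smul_eq_mul, mul_comm, measureReal_restrict_apply_univ, measureReal_def]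

/-- **The square averages of the integrals.** -/
theorem jf_tendsto (h : HC μ a.a j hm σ) (hU : Unq j σ) (hk : ∀ l, ‖k l‖ ≤ C)
    (h3 : Tendsto (fun g : G1 => μ {x | a.a g x ≠ 1}) (𝓝 1) (𝓝 0))
    (hfix : ∀ φ, vg μ a A0 w φ = φ → ∀ g, vg μ a A0 g φ = φ)
    (hΩ : ∀ᵐ g ∂hm, ∃ p l q : G1, g = p * l * q ∧ Tendsto (fun n : ℕ => w ^ n * p * (w ^ n)⁻¹) atTop (𝓝 1) ∧ w * l = l * w ∧
      Tendsto (fun n : ℕ => (w ^ n)⁻¹ * q * w ^ n) atTop (𝓝 1))
    (hv : ∀ (D : Set X), MeasurableSet D → ∀ φ : XL μ H, (∀ g, vg μ a A0 g φ = φ) → inner ℂ φ (xE μ H D (cst μ v0)) = (0 : ℂ)) (l : Λ) :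
    Tendsto (fun N => sa ℂ (jf μ a A0 v0 k w l) N) atTop (𝓝 0) := by
  have := sigma_hm h
  have hC : 0 ≤ C := (norm_nonneg _).trans (hk 1)
  have e1 : ∀ N, ∫ g, sa ℂ (fun n m => fF μ a A0 v0 k w l n m g) N ∂hm = sa ℂ (jf μ a A0 v0 k w l) N := by
    intro N
    simp only [sa, smul_eq_mul]
    rw [integral_const_mul, integral_finsetSum _ fun n _ => integrable_finsetSum _ fun m _ => int_fF h hk]
    congr 1
    refine Finset.sum_congr rfl fun n _ => ?_
    rw [integral_finsetSum _ fun m _ => int_fF h hk]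
    exact Finset.sum_congr rfl fun m _ => jf_eq h hU hk
  have hb : Integrable (fun g => ‖v0‖ * C * (μ {x | a.a g (g⁻¹ • x) = l}).toReal) hm := by
    have h5 : Integrable ({p : G1 × X | a.a p.1 (p.1⁻¹ • p.2) = l}.indicator fun _ => ‖v0‖ * C) (hm.prod μ) := by
      rw [integrable_indicator_iff (meas_fib h l)]
      refine integrableOn_const ?_
      rw [meas_S h l]
      exact ENNReal.one_ne_top
    refine h5.integral_prod_left.congr (ae_of_all _ fun g => ?_)
    have hml : MeasurableSet {x | a.a g (g⁻¹ • x) = l} := (measurable_const_smul g⁻¹) (a.meas g l)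
    show ∫ x, {x | a.a g (g⁻¹ • x) = l}.indicator (fun _ => ‖v0‖ * C) x ∂μ = _
    rw [integral_indicator hml, integral_const, smul_eq_mul, mul_comm, measureReal_restrict_apply_univ, measureReal_def]
  have h4 : Tendsto (fun N => ∫ g, sa ℂ (fun n m => fF μ a A0 v0 k w l n m g) N ∂hm) atTop (𝓝 (∫ _, (0 : ℂ) ∂hm)) := by
    refine tendsto_integral_of_dominated_convergence (fun g => ‖v0‖ * C * (μ {x | a.a g (g⁻¹ • x) = l}).toReal) ?_ hb ?_ ?_
    · intro N
      have h6 : Integrable (fun g => sa ℂ (fun n m => fF μ a A0 v0 k w l n m g) N) hm := by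
        simp only [sa, smul_eq_mul]
        exact (integrable_finsetSum _ fun n _ => integrable_finsetSum _ fun m _ => int_fF h hk).const_mul _
      exact h6.aestronglyMeasurable
    · intro N
      refine ae_of_all _ fun g => ?_
      exact norm_sa_le ℂ (fun n m => norm_fF_le hk g) N
    · filter_upwards [hΩ] with g hg
      obtain ⟨p, l', q, rfl, hp, hl, hq⟩ := hg
      have h7 := kk_weak (μ := μ) (a := a) (A0 := A0) hk h3 hfix hp hl hq (η := eg μ a v0 l (p * l' * q))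
        (fun φ hφ => hv _ (a.meas _ l) φ hφ)
      refine h7.congr fun N => ?_
      rw [← innerSL_apply_apply ℂ, sa_clm]
      congr 1
      funext n m
      rw [innerSL_apply_apply]
      exact (fF_eq hk _).symm
  rw [integral_zero] at h4
  exact h4.congr e1

end Fub

end Pool.Agent.Helper52.FQ
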