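import Pool.Agent.Helper52.FQ.Br
import Pool.Agent.Helper90.OB.G2Maut
import Pool.Agent.Helper63.FQ.NullG
import Pool.Agent.Helper17.FQ.Dd

/-!
# Project FQ (MP_0f6f3f_an), layer D: the hypotheses of layer D at a node

`maut_w`: the Mautner property of one element `exp (ad H)`. `cell_gd`: the big cell at a node of the group data. `DD_of`: the structure `DD` for `w = ea (t e_u)`, `t > 0`.
-/

set_option autoImplicit false
set_option linter.unusedSectionVars false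

open MeasureTheory Filter Topology Matrix
open scoped ENNReal ComplexConjugate

namespace Pool.Agent.Helper52.FQ

section Maut

open Pool.Agent.Helper96.SA Pool.Agent.Helper96.FR Pool.Agent.Helper43.TA Pool.Agent.Helper43.TZ Pool.Agent.Helper96.TO

variable {L : Type} [LieRing L] [LieAlgebra ℝ L] {N : ℕ} {θ : L ≃ₗ⁅ℝ⁆ L} {b : Module.Basis (Fin N) ℝ L}
  {G : Subgroup (GL (Fin N) ℝ)} {A : Submodule ℝ L}

/-- **Mautner property of one element.** -/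
theorem maut_w [LieAlgebra.IsSimple ℝ L] (h : CartanBasis θ b) (hG : IsAdj b G)
    (hc : (G : Set (GL (Fin N) ℝ)) ⊆ closure (Subgroup.closure (Set.range fun x : L => ex (LinearMap.toMatrix b b (LieAlgebra.ad ℝ L x))) : Set (GL (Fin N) ℝ)))
    (hA : MaxFlat θ A) {H : A} (hH : H ≠ 0) {w : G} (hw : (w : GL (Fin N) ℝ) = ex (TT_to b (H : L)))
    {K : Type} [NormedAddCommGroup K] [InnerProductSpace ℂ K] (σ : G →* (K ≃ₗᵢ[ℂ] K)) (ξ : K) (hξ : ξ ∈ contVec σ)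
    (hf : σ w ξ = ξ) (g : G) : σ g ξ = ξ := by
  refine Pool.Agent.Helper50.SR.maut_gen h hG hc hA hH σ ξ hξ (fun Y hY c' hc' hcom τ => ?_) g
  have hinv : w⁻¹ ∈ fixG σ ξ := (fixG σ ξ).inv_mem (mem_fixG.2 hf)
  refine mautner hξ (a := w⁻¹) ?_ (mem_fixG.1 hinv)
  have h7 : ∀ m : ℕ, ((w⁻¹) ^ m)⁻¹ * ⟨ex (τ • Y), mem_lie.1 hY τ⟩ * (w⁻¹) ^ m = ⟨ex ((Real.exp (c' * m) * τ) • Y), mem_lie.1 hY _⟩ := by
    intro m
    refine Subtype.ext ?_
    rw [Subgroup.coe_mul, Subgroup.coe_mul, Subgroup.coe_inv, Subgroup.coe_pow, Subgroup.coe_inv, hw]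
    change ((ex (TT_to b (H : L)))⁻¹ ^ m)⁻¹ * ex (τ • Y) * (ex (TT_to b (H : L)))⁻¹ ^ m = ex ((Real.exp (c' * m) * τ) • Y)
    have e1 : (ex (TT_to b (H : L)))⁻¹ ^ m = (ex ((m : ℝ) • TT_to b (H : L)))⁻¹ := by
      rw [inv_pow, ← ex_nsmul]
    rw [e1, inv_inv, Pool.Agent.Helper90.OB.conj_root (X := τ • Y) (c := c')
      (by rw [Matrix.mul_smul, Matrix.smul_mul, ← smul_sub, hcom, smul_comm]), smul_smul]
  have h8 : Tendsto (fun m : ℕ => Real.exp (c' * m) * τ) atTop (𝓝 0) := by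
    have h9 : Tendsto (fun m : ℕ => c' * (m : ℝ)) atTop atBot :=
      tendsto_natCast_atTop_atTop.const_mul_atTop_of_neg hc'
    have h10 := (Real.tendsto_exp_atBot.comp h9).mul_const τ
    rwa [zero_mul] at h10
  exact (tendsto_exl hY h8).congr fun m => (h7 m).symm

end Maut

section Cell

open Pool.Agent.Helper84.GDL

variable {𝔾 : Type} [Group 𝔾] [TopologicalSpace 𝔾] {ι : Type} [Fintype ι] [DecidableEq ι] (D : GD 𝔾 ι)

theorem ea_pow (u : ι) (t : ℝ) (n : ℕ) : D.ea (Pi.single u t) ^ n = D.ea (Pi.single u (n * t)) := by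
  induction n with
  | zero =>
    have h : D.ea 0 = 1 := D.ea_zero
    rw [pow_zero, Nat.cast_zero, zero_mul, Pi.single_zero, h]
  | succ n ih =>
    rw [pow_succ, ih, ← D.ea_add, ← Pi.single_add]
    congr 2
    push_cast
    ring

theorem ea_single_neg (u : ι) (t : ℝ) : D.ea (Pi.single u (-t)) = (D.ea (Pi.single u t))⁻¹ := by
  rw [← D.ea_neg, Pi.single_neg]

variable [IsTopologicalGroup 𝔾] [MeasurableSpace 𝔾] [BorelSpace 𝔾] [SecondCountableTopology 𝔾] [LocallyCompactSpace 𝔾] [T2Space 𝔾]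
  (μ : Measure 𝔾) [μ.IsHaarMeasure]

/-- **The big cell.** -/
theorem cell_gd (hG : ∀ H : Subgroup 𝔾, IsOpen (H : Set 𝔾) → H = ⊤) (u : ι)
    (hirr : ∀ W : Submodule ℝ (Fin (D.d u + 1) → ℝ), (∀ g : 𝔾, ∀ w ∈ W, D.rho u g *ᵥ w ∈ W) → W = ⊥ ∨ W = ⊤) {t : ℝ} (ht : 0 < t) :
    ∀ᵐ g ∂μ, ∃ p l q : 𝔾, g = p * l * q ∧
      Tendsto (fun n : ℕ => D.ea (Pi.single u t) ^ n * p * (D.ea (Pi.single u t) ^ n)⁻¹) atTop (𝓝 1) ∧
      D.ea (Pi.single u t) * l = l * D.ea (Pi.single u t) ∧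
      Tendsto (fun n : ℕ => (D.ea (Pi.single u t) ^ n)⁻¹ * q * D.ea (Pi.single u t) ^ n) atTop (𝓝 1) := by
  have ht2 : Tendsto (fun n : ℕ => (n : ℝ) * t) atTop atTop := tendsto_natCast_atTop_atTop.atTop_mul_const ht
  filter_upwards [Pool.Agent.Helper63.FQ.ae_cell μ D hG u hirr] with g hg
  obtain ⟨-, p, l, q, h1, h2, h3, h4⟩ := hg
  refine ⟨p, l, q, h1, ?_, (h3 t).symm, ?_⟩
  · refine (h2.comp ht2).congr fun n => ?_
    rw [ea_pow, Function.comp_apply, ea_single_neg]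
  · refine (h4.comp ht2).congr fun n => ?_
    rw [ea_pow, Function.comp_apply, ea_single_neg]

end Cell

section DDof

open Pool.Agent.Helper84 Pool.Agent.Helper84.GN Pool.Agent.Helper84.GN.S3 Pool.Agent.Helper84.GN.S3.X
open Pool.Agent.Helper84.NI Pool.Agent.Helper84.GVN Pool.Agent.Helper90.RK
open Pool.Agent.Helper96.RK Pool.Agent.Helper66.FR Pool.Agent.Helper84.FR Pool.Agent.Helper55.FR Pool.Agent.Helper96.FR
open Pool.Agent.Helper45.FQ (HC pE)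
open Pool.Agent.Helper78.BM (adR adR_apply adR_one FullE InvT Kcont contVec_vg)
open Pool.Agent.Helper84.GDL (GD SI)

variable {G1 X G Λ : Type} [Group G1] [TopologicalSpace G1] [IsTopologicalGroup G1] [SecondCountableTopology G1] [LocallyCompactSpace G1]
  [T2Space G1] [MeasurableSpace G1] [BorelSpace G1] [MeasurableSpace X] [MulAction G1 X]
  [MeasurableConstSMul G1 X] [Group G] [Group Λ] [Countable Λ] {μ : Measure X} [SMulInvariantMeasure G1 X μ]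
  [IsProbabilityMeasure μ] {a : Cocy G1 X Λ} {E : Emb Λ G} {j : Λ →* G1} {hm : Measure G1} {σ : X → G1}
  {ι : Type} [Fintype ι] [DecidableEq ι]

/-- **Layer D at a node of the group data.** -/
theorem DD_of (D : GD G1 ι) (u : ι) {t : ℝ} (ht : 0 < t) (hc : HC μ a.a j hm σ) (hu : Unq j σ)
    (h3 : Tendsto (fun g : G1 => μ {x | a.a g x ≠ 1}) (𝓝 1) (𝓝 0)) (hK : Kcont G1 μ) (hinv : InvT μ a E.conj)
    (hG : ∀ H : Subgroup G1, IsOpen (H : Set G1) → H = ⊤)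
    (hirr : ∀ W : Submodule ℝ (Fin (D.d u + 1) → ℝ), (∀ g : G1, ∀ w ∈ W, D.rho u g *ᵥ w ∈ W) → W = ⊥ ∨ W = ⊤)
    (hmaut : ∀ (H : Type) [NormedAddCommGroup H] [InnerProductSpace ℂ H] (π : G1 →* (H ≃ₗᵢ[ℂ] H)) (ξ : H), ξ ∈ contVec π →
      π (D.ea (Pi.single u t)) ξ = ξ → ∀ g, π g ξ = ξ) :
    DD μ a E (D.ea (Pi.single u t)) j hm σ where
  hc := hc
  unq := hu
  h3 := h3
  inv := hinv
  fix := fun φ hφ g => hmaut _ (vgR μ a (adR E.conj)) φ (contVec_vg h3 hK _ φ) hφ g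
  cell := by
    have : hm.IsHaarMeasure := hc.haar
    exact cell_gd D hm hG u hirr ht

/-- The hypotheses on `w` of helper17's file `Dd` (trivial representation). -/
theorem WH_of (D : GD G1 ι) (u : ι) {t : ℝ} (ht : 0 < t) [hm.IsHaarMeasure]
    (h3 : Tendsto (fun g : G1 => μ {x | a.a g x ≠ 1}) (𝓝 1) (𝓝 0)) (hK : Kcont G1 μ)
    (herg : ∀ (H : Type) (_ : NormedAddCommGroup H) (_ : InnerProductSpace ℂ H) (T : Λ →* (H ≃ₗᵢ[ℂ] H)) (φ : X → H),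
      StronglyMeasurable φ → (∀ g : G1, ∀ᵐ x ∂μ, φ (g • x) = T (a.a g x) (φ x)) → ∃ v : H, (∀ l, T l v = v) ∧ ∀ᵐ x ∂μ, φ x = v)
    (hG : ∀ H : Subgroup G1, IsOpen (H : Set G1) → H = ⊤)
    (hirr : ∀ W : Submodule ℝ (Fin (D.d u + 1) → ℝ), (∀ g : G1, ∀ w ∈ W, D.rho u g *ᵥ w ∈ W) → W = ⊥ ∨ W = ⊤)
    (hmaut : ∀ (H : Type) [NormedAddCommGroup H] [InnerProductSpace ℂ H] (π : G1 →* (H ≃ₗᵢ[ℂ] H)) (ξ : H), ξ ∈ contVec π →
      π (D.ea (Pi.single u t)) ξ = ξ → ∀ g, π g ξ = ξ) :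
    Pool.Agent.Helper17.FQ.WH μ a hm (D.ea (Pi.single u t)) where
  erg := fun φ hφ => by
    have hall : ∀ g, vg μ a (1 : Λ →* (ℂ ≃ₗᵢ[ℂ] ℂ)) g φ = φ :=
      fun g => hmaut _ (vgR μ a (1 : Λ →* (ℂ ≃ₗᵢ[ℂ] ℂ))) φ (contVec_vg h3 hK _ φ) hφ g
    obtain ⟨v, -, hv⟩ := herg ℂ inferInstance inferInstance 1 φ (Lp.stronglyMeasurable φ) (fun g => by
      have h1 := vg_apply (μ := μ) a (1 : Λ →* (ℂ ≃ₗᵢ[ℂ] ℂ)) g φ
      rw [hall g] at h1
      have h2 := (measurePreserving_smul g μ).quasiMeasurePreserving.ae h1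
      filter_upwards [h2] with x hx
      rw [hx, inv_smul_smul])
    refine ⟨v, xl_ext ?_⟩
    filter_upwards [hv, cst_apply (μ := μ) v] with x h1 h2
    rw [h1, h2]
  cell := cell_gd D hm hG u hirr ht

end DDof

end Pool.Agent.Helper52.FQ
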