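import Pool.Agent.Helper52.FQ.Th
import Pool.Agent.Helper17.FQ.Th

/-!
# Project FQ (MP_0f6f3f_an), layer D: the laws `θ_l` of helper17's file

`th17`: `Helper17.FQ.th` is the law `th` for the hyperfilter. `lr_dl`: `U_c δ_k U_c' = U_c λ_k U_c' δ₁`. `ins_lim`: the sum in the field `ins` of `Sand` is the limit of the
averages of the masses of `U_c δ_k U_c'`. `ins_le`: so it is at most `ε` if these masses (integrated) are at most `ε` for large `n`, `m`.
-/

set_option autoImplicit false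
set_option linter.unusedSectionVars false

open MeasureTheory Filter Topology
open scoped ENNReal ComplexConjugate

namespace Pool.Agent.Helper52.FQ

open Pool.Agent.Helper84 Pool.Agent.Helper84.GN Pool.Agent.Helper84.GN.S3 Pool.Agent.Helper84.GN.S3.X
open Pool.Agent.Helper84.NI Pool.Agent.Helper84.GVN Pool.Agent.Helper90.RK
open Pool.Agent.Helper96.RK Pool.Agent.Helper66.FR Pool.Agent.Helper84.FR Pool.Agent.Helper55.FR
open Pool.Agent.Helper45.FQ (HC pE)
open Pool.Agent.Helper78.BM (adR adR_apply adR_one FullE InvT)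

section Br

variable {G Λ : Type} [Group G] [Group Λ] {E : Emb Λ G}

theorem lr_dl (c c' : Λ) (k : G) : lr E c c' (GVN.dl k) = E.U c (lamU k (cf (E.U c'))) := by
  rw [lr_apply]
  congr 1
  have h := jj_dl (E.comm c') k
  rw [map_inv]
  exact h

variable {G1 X : Type} [Group G1] [TopologicalSpace G1] [IsTopologicalGroup G1] [SecondCountableTopology G1] [LocallyCompactSpace G1]
  [MeasurableSpace G1] [BorelSpace G1] [MeasurableSpace X] [MulAction G1 X]
  [MeasurableConstSMul G1 X] [Countable Λ] {μ : Measure X} [SMulInvariantMeasure G1 X μ]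
  [IsProbabilityMeasure μ] {a : Cocy G1 X Λ} {w : G1} {j : Λ →* G1} {hm : Measure G1} {σ : X → G1}

theorem tn_ms (S : Set G) (l : Λ) : Helper17.FQ.tn μ a w l (Helper17.FQ.pm E S) = ms μ a E w S (uv E l) := by
  rw [ms_uv]
  rfl

theorem th17 (l : Λ) (S : Set G) : Helper17.FQ.th μ a E w l S = th μ a E w (hyperfilter ℕ) l S := by
  rw [Helper17.FQ.th, tn_ms]
  rfl

/-- **Diagonality for the field `ins`.** -/
theorem ins_lim (h : DD μ a E w j hm σ) (hF : FullE E) (S : Set G) (k : G) :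
    Tendsto (sa ℝ (ms μ a E w S (GVN.dl k))) (hyperfilter ℕ : Filter ℕ) (𝓝 (∑' l, ‖cf (E.U l) k‖ ^ 2 * Helper17.FQ.th μ a E w l S)) := by
  simp only [th17]
  exact th_dl Helper17.FQ.hyper_atTop h hF S k

theorem ins_le (h : DD μ a E w j hm σ) (hF : FullE E) (S : Set G) (k : G) {ε : ℝ} {M : ℕ} (h0 : 0 ≤ ε)
    (hS : ∀ n m, M ≤ n → M ≤ m → ms μ a E w S (GVN.dl k) n m ≤ ε) : ∑' l, ‖cf (E.U l) k‖ ^ 2 * Helper17.FQ.th μ a E w l S ≤ ε := by
  refine le_of_tendsto (ins_lim h hF S k) (Helper17.FQ.hyper_atTop ?_)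
  filter_upwards [eventually_ge_atTop M] with N hN
  refine (le_abs_self (sa ℝ (ms μ a E w S (GVN.dl k)) N)).trans ?_
  rw [← Real.norm_eq_abs]
  refine norm_sa_le' ℝ h0 fun n m hn hm => ?_
  rw [Real.norm_of_nonneg (ms_nonneg S _ n m)]
  exact hS n m (hN.trans hn) (hN.trans hm)

end Br

end Pool.Agent.Helper52.FQ
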