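import Pool.Agent.Helper52.FQ.Avg

/-!
# Project FQ (MP_0f6f3f_an), layer D: averages over general windows

`wa 𝕜 P Q f N` is the average of `f n m` over `P N ≤ n < P N + N`, `Q N ≤ m < Q N + N`.
-/

set_option autoImplicit false

open Filter Topology

namespace Pool.Agent.Helper52.FQ.Win

section A

variable (𝕜 : Type*) [RCLike 𝕜] {E : Type*} [NormedAddCommGroup E] [NormedSpace 𝕜 E] (P Q : ℕ → ℕ)

/-- The average of `f n m` over the window at `P N`, `Q N` of length `N`. -/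
noncomputable def wa (f : ℕ → ℕ → E) (N : ℕ) : E :=
  ((N : 𝕜)⁻¹ ^ 2) • ∑ n ∈ Finset.range N, ∑ m ∈ Finset.range N, f (P N + n) (Q N + m)

theorem wa_eq_sa (f : ℕ → ℕ → E) (N : ℕ) : wa 𝕜 P Q f N = sa 𝕜 (fun n m => f (P N + (n - N)) (Q N + (m - N))) N := by
  simp only [wa, sa, Nat.add_sub_cancel_left]

theorem wa_id (f : ℕ → ℕ → E) : wa 𝕜 id id f = sa 𝕜 f := rfl

theorem wa_add (f g : ℕ → ℕ → E) (N : ℕ) : wa 𝕜 P Q (fun n m => f n m + g n m) N = wa 𝕜 P Q f N + wa 𝕜 P Q g N := by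
  simp only [wa, Finset.sum_add_distrib, smul_add]

theorem wa_sub (f g : ℕ → ℕ → E) (N : ℕ) : wa 𝕜 P Q (fun n m => f n m - g n m) N = wa 𝕜 P Q f N - wa 𝕜 P Q g N := by
  simp only [wa, Finset.sum_sub_distrib, smul_sub]

theorem wa_sum {ι : Type*} (s : Finset ι) (f : ι → ℕ → ℕ → E) (N : ℕ) :
    wa 𝕜 P Q (fun n m => ∑ i ∈ s, f i n m) N = ∑ i ∈ s, wa 𝕜 P Q (f i) N := by
  classical
  induction s using Finset.induction_on with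
  | empty => simp [wa]
  | insert i s hi ih =>
    simp only [Finset.sum_insert hi]
    rw [wa_add, ih]

theorem wa_smul (c : 𝕜) (f : ℕ → ℕ → E) (N : ℕ) : wa 𝕜 P Q (fun n m => c • f n m) N = c • wa 𝕜 P Q f N := by
  simp only [wa, ← Finset.smul_sum]
  rw [smul_comm]

theorem wa_const (c : E) {N : ℕ} (hN : N ≠ 0) : wa 𝕜 P Q (fun _ _ => c) N = c := by
  rw [wa_eq_sa]
  exact sa_const 𝕜 c hN

/-- Bounds on the relevant square. -/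
theorem norm_wa_le' {f : ℕ → ℕ → E} {C : ℝ} {N : ℕ} (hC : 0 ≤ C) (h : ∀ n m, P N ≤ n → Q N ≤ m → ‖f n m‖ ≤ C) :
    ‖wa 𝕜 P Q f N‖ ≤ C := by
  rw [wa_eq_sa]
  exact norm_sa_le' 𝕜 hC fun n m _ _ => h _ _ (Nat.le_add_right _ _) (Nat.le_add_right _ _)

theorem norm_wa_le {f : ℕ → ℕ → E} {C : ℝ} (h : ∀ n m, ‖f n m‖ ≤ C) (N : ℕ) : ‖wa 𝕜 P Q f N‖ ≤ C :=
  norm_wa_le' 𝕜 P Q ((norm_nonneg _).trans (h 0 0)) fun n m _ _ => h n m

theorem norm_wa_le_wa (f : ℕ → ℕ → E) (N : ℕ) : ‖wa 𝕜 P Q f N‖ ≤ wa ℝ P Q (fun n m => ‖f n m‖) N := by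
  rw [wa_eq_sa, wa_eq_sa]
  exact norm_sa_le_sa 𝕜 _ N

theorem wa_mono {f g : ℕ → ℕ → ℝ} {N : ℕ} (h : ∀ n m, P N ≤ n → Q N ≤ m → f n m ≤ g n m) : wa ℝ P Q f N ≤ wa ℝ P Q g N := by
  rw [wa_eq_sa, wa_eq_sa]
  exact sa_mono fun n m _ _ => h _ _ (Nat.le_add_right _ _) (Nat.le_add_right _ _)

theorem wa_nonneg {f : ℕ → ℕ → ℝ} {N : ℕ} (h : ∀ n m, P N ≤ n → Q N ≤ m → 0 ≤ f n m) : 0 ≤ wa ℝ P Q f N := by
  rw [wa_eq_sa]
  exact sa_nonneg fun n m _ _ => h _ _ (Nat.le_add_right _ _) (Nat.le_add_right _ _)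

variable {P Q}

theorem wa_zero (hP : Tendsto P atTop atTop) (hQ : Tendsto Q atTop atTop) {f : ℕ → ℕ → E}
    (h : ∀ ε : ℝ, 0 < ε → ∃ M : ℕ, ∀ n m, M ≤ n → M ≤ m → ‖f n m‖ ≤ ε) : Tendsto (wa 𝕜 P Q f) atTop (𝓝 0) := by
  rw [Metric.tendsto_atTop]
  intro ε hε
  obtain ⟨M, hM⟩ := h (ε / 2) (half_pos hε)
  obtain ⟨M', hM'⟩ := eventually_atTop.1 ((hP.eventually_ge_atTop M).and (hQ.eventually_ge_atTop M))
  refine ⟨M', fun N hN => ?_⟩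
  rw [dist_zero_right]
  refine (norm_wa_le' 𝕜 P Q (half_pos hε).le fun n m hn hm => hM n m ((hM' N hN).1.trans hn) ((hM' N hN).2.trans hm)).trans_lt
    (half_lt_self hε)

variable (P Q)

theorem norm_wa_succ_left {f : ℕ → ℕ → E} {C : ℝ} (h : ∀ n m, ‖f n m‖ ≤ C) {N : ℕ} (hN : N ≠ 0) :
    ‖wa 𝕜 P Q (fun n m => f (n + 1) m) N - wa 𝕜 P Q f N‖ ≤ 2 * C / N := by
  have h0 : (0 : ℝ) < N := by exact_mod_cast Nat.pos_of_ne_zero hN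
  have e : ∑ n ∈ Finset.range N, ∑ m ∈ Finset.range N, f (P N + n + 1) (Q N + m) -
      ∑ n ∈ Finset.range N, ∑ m ∈ Finset.range N, f (P N + n) (Q N + m) =
      ∑ m ∈ Finset.range N, (f (P N + N) (Q N + m) - f (P N) (Q N + m)) := by
    rw [← Finset.sum_sub_distrib, Finset.sum_sub_distrib (s := Finset.range N) (f := fun m => f (P N + N) (Q N + m))]
    exact Finset.sum_range_sub (fun n => ∑ m ∈ Finset.range N, f (P N + n) (Q N + m)) N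
  rw [wa, wa, ← smul_sub, e, norm_smul, norm_sc]
  have h1 : ‖∑ m ∈ Finset.range N, (f (P N + N) (Q N + m) - f (P N) (Q N + m))‖ ≤ N * (2 * C) := by
    refine (norm_sum_le _ _).trans ?_
    refine (Finset.sum_le_card_nsmul _ _ (2 * C) fun m _ => ?_).trans (by simp)
    refine (norm_sub_le _ _).trans ?_
    linarith [h (P N + N) (Q N + m), h (P N) (Q N + m)]
  calc (N : ℝ)⁻¹ ^ 2 * ‖∑ m ∈ Finset.range N, (f (P N + N) (Q N + m) - f (P N) (Q N + m))‖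
      ≤ (N : ℝ)⁻¹ ^ 2 * (N * (2 * C)) := mul_le_mul_of_nonneg_left h1 (by positivity)
    _ = 2 * C / N := by field_simp

theorem wa_swap (f : ℕ → ℕ → E) (N : ℕ) : wa 𝕜 Q P (fun n m => f m n) N = wa 𝕜 P Q f N := by
  simp only [wa]
  rw [Finset.sum_comm]

theorem norm_wa_succ_right {f : ℕ → ℕ → E} {C : ℝ} (h : ∀ n m, ‖f n m‖ ≤ C) {N : ℕ} (hN : N ≠ 0) :
    ‖wa 𝕜 P Q (fun n m => f n (m + 1)) N - wa 𝕜 P Q f N‖ ≤ 2 * C / N := by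
  have h1 := norm_wa_succ_left 𝕜 Q P (f := fun n m => f m n) (fun n m => h m n) hN
  rw [← wa_swap 𝕜 P Q f, ← wa_swap 𝕜 P Q fun n m => f n (m + 1)]
  exact h1

theorem wa_clm {F : Type*} [NormedAddCommGroup F] [NormedSpace 𝕜 F] (T : E →L[𝕜] F) (f : ℕ → ℕ → E) (N : ℕ) :
    T (wa 𝕜 P Q f N) = wa 𝕜 P Q (fun n m => T (f n m)) N := by
  simp only [wa, map_smul, map_sum]

theorem wa_ofReal (f : ℕ → ℕ → ℝ) (N : ℕ) : wa ℂ P Q (fun n m => (f n m : ℂ)) N = ((wa ℝ P Q f N : ℝ) : ℂ) := by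
  simp only [wa, smul_eq_mul]
  push_cast
  rfl

end A

end Pool.Agent.Helper52.FQ.Win
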