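import Pool.Agent.Helper52.FQ.Pw
import Pool.Agent.Helper52.FQ.Int
import Pool.Agent.Helper52.FQ.WAvg

/-!
# Project FQ (MP_0f6f3f_an), layer D: pointwise weak convergence and integration, general windows

As `Pw` and `Int`, for the averages `wa ℂ P Q`, `P, Q → ∞`.
-/

set_option autoImplicit false
set_option linter.unusedSectionVars false

open MeasureTheory Filter Topology
open scoped ENNReal

namespace Pool.Agent.Helper52.FQ.Win

open Pool.Agent.Helper84 Pool.Agent.Helper84.GN Pool.Agent.Helper84.GN.S3 Pool.Agent.Helper84.GN.S3.X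
open Pool.Agent.Helper84.NI Pool.Agent.Helper84.GVN Pool.Agent.Helper90.RK
open Pool.Agent.Helper96.RK Pool.Agent.Helper66.FR Pool.Agent.Helper84.FR Pool.Agent.Helper55.FR
open Pool.Agent.Helper45.FQ (HC)
open Pool.Agent.Helper52.FQ

section Weak

variable {G1 X Λ H : Type} [Group G1] [TopologicalSpace G1] [IsTopologicalGroup G1] [MeasurableSpace X] [MulAction G1 X]
  [MeasurableConstSMul G1 X] [Group Λ] [Countable Λ] {μ : Measure X} [SMulInvariantMeasure G1 X μ]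
  [IsProbabilityMeasure μ] {a : Cocy G1 X Λ} [NormedAddCommGroup H] [InnerProductSpace ℂ H] [CompleteSpace H]
  {A0 : Λ →* (H ≃ₗᵢ[ℂ] H)} {k : Λ → H} {C : ℝ} {w : G1} {P Q : ℕ → ℕ}

private theorem small52w {D : ℕ → ℝ} (hD : Tendsto D atTop (𝓝 0)) {ε : ℝ} (hε : 0 < ε) :
    ∃ M : ℕ, ∀ n, M ≤ n → ∀ v : H, ‖v‖ ^ 2 ≤ (2 * C) ^ 2 * D n → ‖v‖ ≤ ε := by
  have h1 : Tendsto (fun n => (2 * C) ^ 2 * D n) atTop (𝓝 0) := by
    have h := hD.const_mul ((2 * C) ^ 2)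
    rwa [mul_zero] at h
  obtain ⟨M, hM⟩ := eventually_atTop.1 (h1.eventually (gt_mem_nhds (pow_pos hε 2)))
  refine ⟨M, fun n hn v hv => ?_⟩
  exact (sq_le_sq₀ (norm_nonneg _) hε.le).1 (hv.trans (hM n hn).le)

theorem wa_left (hP : Tendsto P atTop atTop) (hQ : Tendsto Q atTop atTop) (hk : ∀ l, ‖k l‖ ≤ C)
    (h3 : Tendsto (fun g : G1 => μ {x | a.a g x ≠ 1}) (𝓝 1) (𝓝 0)) {p : G1}
    (hp : Tendsto (fun n : ℕ => w ^ n * p * (w ^ n)⁻¹) atTop (𝓝 1)) (g : G1) :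
    Tendsto (fun N => wa ℂ P Q (kk μ a A0 k w (p * g)) N - wa ℂ P Q (kk μ a A0 k w g) N) atTop (𝓝 0) := by
  have h := wa_zero ℂ hP hQ (f := fun n m => kk μ a A0 k w (p * g) n m - kk μ a A0 k w g n m) (fun ε hε => by
    obtain ⟨M, hM⟩ := small52w (H := XL μ H) (dl_tendsto h3 hp) (C := C) hε
    exact ⟨M, fun n m hn _ => hM n hn _ (kk_left A0 hk w p g n m)⟩)
  refine h.congr fun N => ?_
  rw [wa_sub]

theorem wa_right (hP : Tendsto P atTop atTop) (hQ : Tendsto Q atTop atTop) (hk : ∀ l, ‖k l‖ ≤ C)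
    (h3 : Tendsto (fun g : G1 => μ {x | a.a g x ≠ 1}) (𝓝 1) (𝓝 0)) {q : G1}
    (hq : Tendsto (fun n : ℕ => (w ^ n)⁻¹ * q * w ^ n) atTop (𝓝 1)) (g : G1) :
    Tendsto (fun N => wa ℂ P Q (kk μ a A0 k w (g * q)) N - vg μ a A0 q⁻¹ (wa ℂ P Q (kk μ a A0 k w g) N)) atTop (𝓝 0) := by
  have h := wa_zero ℂ hP hQ (f := fun n m => kk μ a A0 k w (g * q) n m - vg μ a A0 q⁻¹ (kk μ a A0 k w g n m)) (fun ε hε => by
    obtain ⟨M, hM⟩ := small52w (H := XL μ H) (dl_tendsto h3 hq) (C := C) hε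
    exact ⟨M, fun n m _ hm => hM m hm _ (kk_right A0 hk w g q n m)⟩)
  refine h.congr fun N => ?_
  rw [wa_sub, wa_clm]

theorem wa_comm (P Q : ℕ → ℕ) (hk : ∀ l, ‖k l‖ ≤ C) {l : G1} (hl : w * l = l * w) :
    Tendsto (fun N => vg μ a A0 w (wa ℂ P Q (kk μ a A0 k w l) N) - wa ℂ P Q (kk μ a A0 k w l) N) atTop (𝓝 0) := by
  have hb := norm_kk_le (μ := μ) (a := a) A0 hk w l
  rw [tendsto_zero_iff_norm_tendsto_zero]
  have h1 : Tendsto (fun N : ℕ => 4 * C / N) atTop (𝓝 0) := tendsto_const_div_atTop_nhds_zero_nat (4 * C)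
  refine squeeze_zero' (Eventually.of_forall fun _ => norm_nonneg _) ?_ h1
  filter_upwards [eventually_ne_atTop 0] with N hN
  have e1 : vg μ a A0 w (wa ℂ P Q (fun n m => kk μ a A0 k w l (n + 1) m) N) = wa ℂ P Q (fun n m => kk μ a A0 k w l n (m + 1)) N := by
    rw [wa_clm]
    congr 1
    funext n m
    exact kk_comm A0 k hl n m
  have e2 := norm_wa_succ_left ℂ P Q hb hN
  have e3 := norm_wa_succ_right ℂ P Q hb hN
  have e4 : vg μ a A0 w (wa ℂ P Q (kk μ a A0 k w l) N) - wa ℂ P Q (kk μ a A0 k w l) N =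
      -(vg μ a A0 w (wa ℂ P Q (fun n m => kk μ a A0 k w l (n + 1) m) N - wa ℂ P Q (kk μ a A0 k w l) N)) +
        (wa ℂ P Q (fun n m => kk μ a A0 k w l n (m + 1)) N - wa ℂ P Q (kk μ a A0 k w l) N) := by
    rw [map_sub, e1]
    abel
  rw [e4]
  refine (norm_add_le _ _).trans ?_
  rw [norm_neg, norm_vg]
  have e5 : (4 : ℝ) * C / N = 2 * C / N + 2 * C / N := by ring
  rw [e5]
  exact add_le_add e2 e3

/-- **Pointwise weak convergence, general windows.** -/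
theorem kk_weak (hP : Tendsto P atTop atTop) (hQ : Tendsto Q atTop atTop) (hk : ∀ l, ‖k l‖ ≤ C)
    (h3 : Tendsto (fun g : G1 => μ {x | a.a g x ≠ 1}) (𝓝 1) (𝓝 0))
    (hfix : ∀ φ, vg μ a A0 w φ = φ → ∀ g, vg μ a A0 g φ = φ) {p l q : G1}
    (hp : Tendsto (fun n : ℕ => w ^ n * p * (w ^ n)⁻¹) atTop (𝓝 1)) (hl : w * l = l * w)
    (hq : Tendsto (fun n : ℕ => (w ^ n)⁻¹ * q * w ^ n) atTop (𝓝 1)) {η : XL μ H}
    (hη : ∀ φ, (∀ g, vg μ a A0 g φ = φ) → inner ℂ φ η = (0 : ℂ)) :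
    Tendsto (fun N => (inner ℂ η (wa ℂ P Q (kk μ a A0 k w (p * l * q)) N) : ℂ)) atTop (𝓝 0) := by
  have h1 := wa_left (A0 := A0) hP hQ hk h3 hp (l * q)
  have h2 := wa_right (A0 := A0) hP hQ hk h3 hq l
  have h4 := wa_comm (A0 := A0) (μ := μ) (a := a) P Q hk hl
  have h5 : Tendsto (fun N => (inner ℂ (vg μ a A0 q η) (wa ℂ P Q (kk μ a A0 k w l) N) : ℂ)) atTop (𝓝 0) := by
    refine weak_of_inv (fun N => norm_wa_le ℂ P Q (norm_kk_le A0 hk w l) N) h4 fun φ hφ => ?_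
    have h6 := hfix φ hφ
    have h7 : (inner ℂ φ (vg μ a A0 q η) : ℂ) = inner ℂ (vg μ a A0 q φ) (vg μ a A0 q η) := by rw [h6 q]
    rw [h7]
    have h8 := (vgR μ a A0 q).inner_map_map φ η
    rw [vgR_apply, vgR_apply] at h8
    rw [h8]
    exact hη φ h6
  have h6 : Tendsto (fun N => (inner ℂ η (wa ℂ P Q (kk μ a A0 k w (p * (l * q))) N - wa ℂ P Q (kk μ a A0 k w (l * q)) N) : ℂ)) atTop (𝓝 0) := by
    have h := (tendsto_const_nhds (x := η)).inner h1 (𝕜 := ℂ)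
    rwa [inner_zero_right] at h
  have h7 : Tendsto (fun N => (inner ℂ η (wa ℂ P Q (kk μ a A0 k w (l * q)) N - vg μ a A0 q⁻¹ (wa ℂ P Q (kk μ a A0 k w l) N)) : ℂ))
      atTop (𝓝 0) := by
    have h := (tendsto_const_nhds (x := η)).inner h2 (𝕜 := ℂ)
    rwa [inner_zero_right] at h
  have h8 := (h6.add h7).add h5
  rw [add_zero, add_zero] at h8
  refine h8.congr fun N => ?_
  have e1 : (inner ℂ (vg μ a A0 q η) (wa ℂ P Q (kk μ a A0 k w l) N) : ℂ) =
      inner ℂ η (vg μ a A0 q⁻¹ (wa ℂ P Q (kk μ a A0 k w l) N)) := by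
    have h9 := (vgR μ a A0 q).inner_map_map η (vg μ a A0 q⁻¹ (wa ℂ P Q (kk μ a A0 k w l) N))
    rw [vgR_apply, vgR_apply, ← vg_mul, mul_inv_cancel, vg_one] at h9
    exact h9
  rw [e1, ← inner_add_right, ← inner_add_right, mul_assoc]
  congr 1
  abel

end Weak

section Fub

variable {G1 X Λ H : Type} [Group G1] [TopologicalSpace G1] [IsTopologicalGroup G1] [SecondCountableTopology G1] [LocallyCompactSpace G1]
  [MeasurableSpace G1] [BorelSpace G1] [MeasurableSpace X] [MulAction G1 X]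
  [MeasurableConstSMul G1 X] [Group Λ] [Countable Λ] {μ : Measure X} [SMulInvariantMeasure G1 X μ]
  [IsProbabilityMeasure μ] {a : Cocy G1 X Λ} [NormedAddCommGroup H] [InnerProductSpace ℂ H] [CompleteSpace H]
  {A0 : Λ →* (H ≃ₗᵢ[ℂ] H)} {k : Λ → H} {C : ℝ} {w : G1} {j : Λ →* G1} {hm : Measure G1} {σ : X → G1} {P Q : ℕ → ℕ} {v0 : H}

/-- **The averages of the integrals, general windows.** -/
theorem jf_tendsto (hP : Tendsto P atTop atTop) (hQ : Tendsto Q atTop atTop) (h : HC μ a.a j hm σ) (hU : Unq j σ) (hk : ∀ l, ‖k l‖ ≤ C)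
    (h3 : Tendsto (fun g : G1 => μ {x | a.a g x ≠ 1}) (𝓝 1) (𝓝 0))
    (hfix : ∀ φ, vg μ a A0 w φ = φ → ∀ g, vg μ a A0 g φ = φ)
    (hΩ : ∀ᵐ g ∂hm, ∃ p l q : G1, g = p * l * q ∧ Tendsto (fun n : ℕ => w ^ n * p * (w ^ n)⁻¹) atTop (𝓝 1) ∧ w * l = l * w ∧
      Tendsto (fun n : ℕ => (w ^ n)⁻¹ * q * w ^ n) atTop (𝓝 1))
    (hv : ∀ (D : Set X), MeasurableSet D → ∀ φ : XL μ H, (∀ g, vg μ a A0 g φ = φ) → inner ℂ φ (xE μ H D (cst μ v0)) = (0 : ℂ)) (l : Λ) :
    Tendsto (fun N => wa ℂ P Q (jf μ a A0 v0 k w l) N) atTop (𝓝 0) := by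
  have := sigma_hm h
  have hC : 0 ≤ C := (norm_nonneg _).trans (hk 1)
  have e1 : ∀ N, ∫ g, wa ℂ P Q (fun n m => fF μ a A0 v0 k w l n m g) N ∂hm = wa ℂ P Q (jf μ a A0 v0 k w l) N := by
    intro N
    simp only [wa, smul_eq_mul]
    rw [integral_const_mul, integral_finsetSum _ fun n _ => integrable_finsetSum _ fun m _ => int_fF h hk]
    congr 1
    refine Finset.sum_congr rfl fun n _ => ?_
    rw [integral_finsetSum _ fun m _ => int_fF h hk]
    exact Finset.sum_congr rfl fun m _ => jf_eq h hU hk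
  have hb : Integrable (fun g => ‖v0‖ * C * (μ {x | a.a g (g⁻¹ • x) = l}).toReal) hm := by
    have h5 : Integrable ({p : G1 × X | a.a p.1 (p.1⁻¹ • p.2) = l}.indicator fun _ => ‖v0‖ * C) (hm.prod μ) := by
      rw [integrable_indicator_iff (meas_fib h l)]
      refine integrableOn_const ?_
      rw [meas_S h l]
      exact ENNReal.one_ne_top
    refine h5.integral_prod_left.congr (ae_of_all _ fun g => ?_)
    have hml : MeasurableSet {x | a.a g (g⁻¹ • x) = l} := (measurable_const_smul g⁻¹) (a.meas g l)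
    show ∫ x, {x | a.a g (g⁻¹ • x) = l}.indicator (fun _ => ‖v0‖ * C) x ∂μ = _
    rw [integral_indicator hml, integral_const, smul_eq_mul, mul_comm, measureReal_restrict_apply_univ, measureReal_def]
  have h4 : Tendsto (fun N => ∫ g, wa ℂ P Q (fun n m => fF μ a A0 v0 k w l n m g) N ∂hm) atTop (𝓝 (∫ _, (0 : ℂ) ∂hm)) := by
    refine tendsto_integral_of_dominated_convergence (fun g => ‖v0‖ * C * (μ {x | a.a g (g⁻¹ • x) = l}).toReal) ?_ hb ?_ ?_
    · intro N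
      have h6 : Integrable (fun g => wa ℂ P Q (fun n m => fF μ a A0 v0 k w l n m g) N) hm := by
        simp only [wa, smul_eq_mul]
        exact (integrable_finsetSum _ fun n _ => integrable_finsetSum _ fun m _ => int_fF h hk).const_mul _
      exact h6.aestronglyMeasurable
    · intro N
      refine ae_of_all _ fun g => ?_
      exact norm_wa_le ℂ P Q (fun n m => norm_fF_le hk g) N
    · filter_upwards [hΩ] with g hg
      obtain ⟨p, l', q, rfl, hp, hl, hq⟩ := hg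
      have h7 := kk_weak (μ := μ) (a := a) (A0 := A0) hP hQ hk h3 hfix hp hl hq (η := eg μ a v0 l (p * l' * q))
        (fun φ hφ => hv _ (a.meas _ l) φ hφ)
      refine h7.congr fun N => ?_
      rw [← innerSL_apply_apply ℂ, wa_clm]
      congr 1
      funext n m
      rw [innerSL_apply_apply]
      exact (fF_eq hk _).symm
  rw [integral_zero] at h4
  exact h4.congr e1

end Fub

end Pool.Agent.Helper52.FQ.Win
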