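import Pool.Agent.Helper52.FQ.Th
import Pool.Agent.Helper52.FQ.WPw

/-!
# Project FQ (MP_0f6f3f_an), layer D: diagonality for general windows

`diag_main`, `diag_ms`, `diag_dl`: as in `Diag` and `Th`, for the averages `wa` over the windows `[P N, P N + N) × [Q N, Q N + N)`, `P, Q → ∞`, as honest limits.
-/

set_option autoImplicit false
set_option linter.unusedSectionVars false

open MeasureTheory Filter Topology
open scoped ENNReal ComplexConjugate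

namespace Pool.Agent.Helper52.FQ.Win

open Pool.Agent.Helper84 Pool.Agent.Helper84.GN Pool.Agent.Helper84.GN.S3 Pool.Agent.Helper84.GN.S3.X
open Pool.Agent.Helper84.NI Pool.Agent.Helper84.GVN Pool.Agent.Helper90.RK
open Pool.Agent.Helper96.RK Pool.Agent.Helper66.FR Pool.Agent.Helper84.FR Pool.Agent.Helper55.FR
open Pool.Agent.Helper45.FQ (HC pE)
open Pool.Agent.Helper78.BM (adR adR_apply adR_one FullE InvT)
open Pool.Agent.Helper52.FQ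

section W

variable {G1 X G Λ : Type} [Group G1] [TopologicalSpace G1] [IsTopologicalGroup G1] [SecondCountableTopology G1] [LocallyCompactSpace G1]
  [MeasurableSpace G1] [BorelSpace G1] [MeasurableSpace X] [MulAction G1 X]
  [MeasurableConstSMul G1 X] [Group G] [Group Λ] [Countable Λ] {μ : Measure X} [SMulInvariantMeasure G1 X μ]
  [IsProbabilityMeasure μ] {a : Cocy G1 X Λ} {E : Emb Λ G} {w : G1} {j : Λ →* G1} {hm : Measure G1} {σ : X → G1} {P Q : ℕ → ℕ}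

/-- **The off-diagonal terms.** -/
theorem off_diag (hP : Tendsto P atTop atTop) (hQ : Tendsto Q atTop atTop) (h : DD μ a E w j hm σ) (T : L2 G →L[ℂ] L2 G) {l l' : Λ}
    (hl : l ≠ l') :
    Tendsto (fun N => wa ℂ P Q (da μ a w fun c c' => (inner ℂ (uv E (c * l' * c')) (T (uv E (c * l * c'))) : ℂ)) N) atTop (𝓝 0) := by
  have hd : l⁻¹ * l' ≠ 1 := fun h1 => hl (inv_mul_eq_one.1 h1)
  have h1 := jf_tendsto (A0 := adR E.conj) (k := kT E T) (v0 := uv E (l⁻¹ * l')) hP hQ h.hc h.unq (norm_kT_le E T) h.h3 h.fix h.cell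
    (fun D hD φ hφ => by
      obtain ⟨c, rfl⟩ := h.inv φ hφ
      rw [inner_smul_left, xl_inner]
      have h2 : ∫ x, (inner ℂ (cst μ (GVN.dl 1 : L2 G) x) (xE μ (L2 G) D (cst μ (uv E (l⁻¹ * l'))) x) : ℂ) ∂μ = ∫ _, (0 : ℂ) ∂μ := by
        refine integral_congr_ae ?_
        filter_upwards [cst_apply (μ := μ) (GVN.dl 1 : L2 G), xE_apply hD (cst μ (uv E (l⁻¹ * l')) : XL μ (L2 G)),
          cst_apply (μ := μ) (uv E (l⁻¹ * l'))] with x h1 h2 h3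
        rw [h1, h2, h3, inner_smul_right, inner_dl_left]
        have h4 : uv E (l⁻¹ * l') 1 = 0 := E.tr _ hd
        rw [h4, mul_zero]
      rw [h2, integral_zero, mul_zero]) l
  refine h1.congr fun N => ?_
  congr 1
  funext n m
  rw [jf, da]
  refine integral_congr_ae (ae_of_all _ fun x => ?_)
  refine integral_congr_ae (ae_of_all _ fun z => ?_)
  show (inner ℂ (uv E (l⁻¹ * l')) (adR E.conj (a.a (w ^ m) z) (kT E T (a.a (w ^ n) x * l * a.a (w ^ m) z))) : ℂ) = _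
  rw [inner_kT, mul_inv_cancel_left]

/-- The diagonal part. -/
noncomputable def dgp (P Q : ℕ → ℕ) (μ : Measure X) (a : Cocy G1 X Λ) (E : Emb Λ G) (w : G1) (T : L2 G →L[ℂ] L2 G) (B : L2 G) (N : ℕ) : ℂ :=
  ∑' l, ((‖(inner ℂ (uv E l) B : ℂ)‖ ^ 2 : ℝ) : ℂ) * wa ℂ P Q (qd μ a E w T (uv E l) (uv E l)) N

theorem norm_wa_qd_le (P Q : ℕ → ℕ) (T : L2 G →L[ℂ] L2 G) (B B' : L2 G) (N : ℕ) : ‖wa ℂ P Q (qd μ a E w T B B') N‖ ≤ ‖T‖ * ‖B‖ * ‖B'‖ :=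
  norm_wa_le ℂ P Q (norm_qd_le T B B') N

theorem norm_wa_uv_le (P Q : ℕ → ℕ) (T : L2 G →L[ℂ] L2 G) (l : Λ) (N : ℕ) : ‖wa ℂ P Q (qd μ a E w T (uv E l) (uv E l)) N‖ ≤ ‖T‖ := by
  have h := norm_wa_qd_le (μ := μ) (a := a) (E := E) (w := w) P Q T (uv E l) (uv E l) N
  rwa [norm_uv, mul_one, mul_one] at h

/-- **Diagonality, finite combinations.** -/
theorem diag_fin (hP : Tendsto P atTop atTop) (hQ : Tendsto Q atTop atTop) (h : DD μ a E w j hm σ) (T : L2 G →L[ℂ] L2 G) (s : Finset Λ)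
    (b : Λ → ℂ) :
    Tendsto (fun N => wa ℂ P Q (qd μ a E w T (∑ l ∈ s, b l • uv E l) (∑ l ∈ s, b l • uv E l)) N -
      ∑ l ∈ s, ((‖b l‖ ^ 2 : ℝ) : ℂ) * wa ℂ P Q (qd μ a E w T (uv E l) (uv E l)) N) atTop (𝓝 0) := by
  classical
  have h1 : ∀ p ∈ s ×ˢ s, Tendsto (fun N => if p.1 = p.2 then (0 : ℂ) else
      conj (b p.1) * b p.2 * wa ℂ P Q (qd μ a E w T (uv E p.1) (uv E p.2)) N) atTop (𝓝 0) := by
    intro p _
    split_ifs with hp
    · exact tendsto_const_nhds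
    · have h2 := off_diag hP hQ h T (l := p.2) (l' := p.1) (Ne.symm hp)
      rw [← qd_uv] at h2
      have h3 := h2.const_mul (conj (b p.1) * b p.2)
      rwa [mul_zero] at h3
  have h2 := tendsto_finsetSum _ h1
  rw [Finset.sum_const_zero] at h2
  refine h2.congr fun N => ?_
  have e1 : wa ℂ P Q (qd μ a E w T (∑ l ∈ s, b l • uv E l) (∑ l ∈ s, b l • uv E l)) N =
      ∑ p ∈ s ×ˢ s, conj (b p.1) * b p.2 * wa ℂ P Q (qd μ a E w T (uv E p.1) (uv E p.2)) N := by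
    have e2 : qd μ a E w T (∑ l ∈ s, b l • uv E l) (∑ l ∈ s, b l • uv E l) =
        fun n m => ∑ p ∈ s ×ˢ s, (conj (b p.1) * b p.2) • qd μ a E w T (uv E p.1) (uv E p.2) n m := by
      funext n m
      exact qd_fin T s b n m
    rw [e2, wa_sum]
    refine Finset.sum_congr rfl fun p _ => ?_
    rw [wa_smul, smul_eq_mul]
  have e3 : ∑ l ∈ s, ((‖b l‖ ^ 2 : ℝ) : ℂ) * wa ℂ P Q (qd μ a E w T (uv E l) (uv E l)) N =
      ∑ p ∈ s ×ˢ s, if p.1 = p.2 then conj (b p.1) * b p.2 * wa ℂ P Q (qd μ a E w T (uv E p.1) (uv E p.2)) N else 0 := by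
    rw [Finset.sum_product]
    refine Finset.sum_congr rfl fun l hl => ?_
    rw [Finset.sum_ite_eq s l fun l' => conj (b l) * b l' * wa ℂ P Q (qd μ a E w T (uv E l) (uv E l')) N, if_pos hl,
      ← Complex.normSq_eq_conj_mul_self, Complex.normSq_eq_norm_sq]
  rw [e1, e3, ← Finset.sum_sub_distrib]
  refine Finset.sum_congr rfl fun p _ => ?_
  split_ifs <;> ring

/-- The form is continuous. -/
theorem form_near (P Q : ℕ → ℕ) (T : L2 G →L[ℂ] L2 G) (B Bs : L2 G) {δ : ℝ} (hd : ‖B - Bs‖ ≤ δ) (hδ1 : δ ≤ 1) (N : ℕ) :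
    ‖wa ℂ P Q (qd μ a E w T B B) N - wa ℂ P Q (qd μ a E w T Bs Bs) N‖ ≤ ‖T‖ * (2 * ‖B‖ + 1) * δ := by
  have e1 : wa ℂ P Q (qd μ a E w T B B) N - wa ℂ P Q (qd μ a E w T Bs Bs) N =
      wa ℂ P Q (qd μ a E w T (B - Bs) B) N + wa ℂ P Q (qd μ a E w T Bs (B - Bs)) N := by
    rw [← wa_sub, ← wa_add]
    congr 1
    funext n m
    rw [qd_sub_left, qd_sub_right]
    ring
  rw [e1]
  refine (norm_add_le _ _).trans ?_
  have h7 := norm_wa_qd_le (μ := μ) (a := a) (E := E) (w := w) P Q T (B - Bs) B N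
  have h8 := norm_wa_qd_le (μ := μ) (a := a) (E := E) (w := w) P Q T Bs (B - Bs) N
  have h9 : ‖Bs‖ ≤ ‖B‖ + 1 := by
    calc ‖Bs‖ = ‖B - (B - Bs)‖ := by rw [sub_sub_cancel]
      _ ≤ ‖B‖ + ‖B - Bs‖ := norm_sub_le _ _
      _ ≤ ‖B‖ + 1 := by linarith
  have hT := norm_nonneg T
  have hB := norm_nonneg B
  calc ‖wa ℂ P Q (qd μ a E w T (B - Bs) B) N‖ + ‖wa ℂ P Q (qd μ a E w T Bs (B - Bs)) N‖
      ≤ ‖T‖ * ‖B - Bs‖ * ‖B‖ + ‖T‖ * ‖Bs‖ * ‖B - Bs‖ := add_le_add h7 h8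
    _ = ‖T‖ * (‖B‖ + ‖Bs‖) * ‖B - Bs‖ := by ring
    _ ≤ ‖T‖ * (2 * ‖B‖ + 1) * δ := by
      refine mul_le_mul (mul_le_mul_of_nonneg_left (by linarith) hT) hd (norm_nonneg _) (by positivity)

/-- The diagonal part is close to a finite sum. -/
theorem dgp_near (P Q : ℕ → ℕ) (hF : FullE E) (T : L2 G →L[ℂ] L2 G) (B : L2 G) (s : Finset Λ) (N : ℕ) :
    ‖dgp P Q μ a E w T B N - ∑ l ∈ s, ((‖(inner ℂ (uv E l) B : ℂ)‖ ^ 2 : ℝ) : ℂ) * wa ℂ P Q (qd μ a E w T (uv E l) (uv E l)) N‖ ≤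
      ‖T‖ * (‖B‖ ^ 2 - ∑ l ∈ s, ‖(inner ℂ (uv E l) B : ℂ)‖ ^ 2) :=
  tail_le (p := fun l => ‖(inner ℂ (uv E l) B : ℂ)‖ ^ 2) (fun _ => by positivity) (hasSum_sq hF B) _ (fun l => norm_wa_uv_le P Q T l N) s

/-- **Diagonality, general windows.** -/
theorem diag_main (hP : Tendsto P atTop atTop) (hQ : Tendsto Q atTop atTop) (h : DD μ a E w j hm σ) (hF : FullE E)
    (T : L2 G →L[ℂ] L2 G) (B : L2 G) :
    Tendsto (fun N => wa ℂ P Q (qd μ a E w T B B) N - dgp P Q μ a E w T B N) atTop (𝓝 0) := by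
  rw [Metric.tendsto_atTop]
  intro ε hε
  obtain ⟨K, hK⟩ : ∃ K : ℝ, K = ‖T‖ * (2 * ‖B‖ + 1) + ‖T‖ + 1 := ⟨_, rfl⟩
  have hT := norm_nonneg T
  have hB := norm_nonneg B
  have hK0 : 0 < K := by rw [hK]; positivity
  obtain ⟨δ, hδ0, hδ1, hδ2⟩ : ∃ δ : ℝ, 0 < δ ∧ δ ≤ 1 ∧ K * δ ≤ ε / 2 := by
    refine ⟨min 1 (ε / (2 * K)), lt_min one_pos (by positivity), min_le_left _ _, ?_⟩
    calc K * min 1 (ε / (2 * K)) ≤ K * (ε / (2 * K)) := mul_le_mul_of_nonneg_left (min_le_right _ _) hK0.le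
      _ = ε / 2 := by field_simp
  obtain ⟨s, hs1, hs2⟩ := good_set hF B hδ0
  obtain ⟨M, hM⟩ := Metric.tendsto_atTop.1 (diag_fin hP hQ h T s fun l => inner ℂ (uv E l) B) (ε / 2) (half_pos hε)
  refine ⟨M, fun N hN => ?_⟩
  have h5 := hM N hN
  rw [dist_zero_right] at h5 ⊢
  have h6 := form_near (μ := μ) (a := a) (E := E) (w := w) P Q T B _ hs1 hδ1 N
  have h7 := dgp_near (μ := μ) (a := a) (w := w) P Q hF T B s N
  generalize wa ℂ P Q (qd μ a E w T (∑ l ∈ s, (inner ℂ (uv E l) B : ℂ) • uv E l) (∑ l ∈ s, (inner ℂ (uv E l) B : ℂ) • uv E l)) N = y at h5 h6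
  generalize ∑ l ∈ s, ((‖(inner ℂ (uv E l) B : ℂ)‖ ^ 2 : ℝ) : ℂ) * wa ℂ P Q (qd μ a E w T (uv E l) (uv E l)) N = z at h5 h7
  have h7' : ‖dgp P Q μ a E w T B N - z‖ ≤ ‖T‖ * δ := h7.trans (mul_le_mul_of_nonneg_left hs2 hT)
  have e1 : wa ℂ P Q (qd μ a E w T B B) N - dgp P Q μ a E w T B N =
      (wa ℂ P Q (qd μ a E w T B B) N - y) + (y - z) - (dgp P Q μ a E w T B N - z) := by ring
  rw [e1]
  have h8 := norm_sub_le ((wa ℂ P Q (qd μ a E w T B B) N - y) + (y - z)) (dgp P Q μ a E w T B N - z)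
  have h9 := norm_add_le (wa ℂ P Q (qd μ a E w T B B) N - y) (y - z)
  have h10 : ‖T‖ * (2 * ‖B‖ + 1) * δ + ‖T‖ * δ ≤ K * δ := by
    rw [hK]
    nlinarith
  linarith

theorem wa_qd_ind (P Q : ℕ → ℕ) (S : Set G) (B : L2 G) (N : ℕ) :
    wa ℂ P Q (qd μ a E w (ind ℂ S) B B) N = ((wa ℝ P Q (ms μ a E w S B) N : ℝ) : ℂ) := by
  rw [← wa_ofReal]
  congr 1
  funext n m
  exact qd_ind S B n m

theorem abs_wa_ms (P Q : ℕ → ℕ) (S : Set G) (B : L2 G) (N : ℕ) : |wa ℝ P Q (ms μ a E w S B) N| ≤ ‖B‖ ^ 2 :=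
  norm_wa_le ℝ P Q (norm_da_le (ms_bound S B)) N

/-- **Diagonality for the masses, general windows.** -/
theorem diag_ms (hP : Tendsto P atTop atTop) (hQ : Tendsto Q atTop atTop) (h : DD μ a E w j hm σ) (hF : FullE E) (S : Set G) (B : L2 G) :
    Tendsto (fun N => wa ℝ P Q (ms μ a E w S B) N - ∑' l, ‖(inner ℂ (uv E l) B : ℂ)‖ ^ 2 * wa ℝ P Q (ms μ a E w S (uv E l)) N)
      atTop (𝓝 0) := by
  have h1 := diag_main hP hQ h hF (ind ℂ S) B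
  have h2 : ∀ N, dgp P Q μ a E w (ind ℂ S) B N = ((∑' l, ‖(inner ℂ (uv E l) B : ℂ)‖ ^ 2 * wa ℝ P Q (ms μ a E w S (uv E l)) N : ℝ) : ℂ) := by
    intro N
    rw [dgp, Complex.ofReal_tsum]
    refine tsum_congr fun l => ?_
    rw [wa_qd_ind, Complex.ofReal_mul]
  have h6 := (Complex.continuous_re.tendsto 0).comp h1
  rw [Complex.zero_re] at h6
  refine h6.congr fun N => ?_
  rw [Function.comp_apply, h2, wa_qd_ind, Complex.sub_re, Complex.ofReal_re, Complex.ofReal_re]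

/-- **Diagonality at the vectors `δ_k`, general windows.** -/
theorem diag_dl (hP : Tendsto P atTop atTop) (hQ : Tendsto Q atTop atTop) (h : DD μ a E w j hm σ) (hF : FullE E) (S : Set G) (k : G) :
    Tendsto (fun N => wa ℝ P Q (ms μ a E w S (GVN.dl k)) N - ∑' l, ‖cf (E.U l) k‖ ^ 2 * wa ℝ P Q (ms μ a E w S (uv E l)) N)
      atTop (𝓝 0) := by
  have h1 := diag_ms hP hQ h hF S (GVN.dl k : L2 G)
  simp only [inner_uv_dl] at h1
  exact h1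

end W

end Pool.Agent.Helper52.FQ.Win
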