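import Pool.Agent.Helper52.FQ.Diag
import Pool.Agent.Helper45.FQ.Loc6

/-!
# Project FQ (MP_0f6f3f_an), layer D: the laws `θ_l`

`ms S B = ∫∫ |1_S (U_c B U_c')|²`, `th ω l S` the limit of the square averages of `ms S (U_l δ₁)` along the ultrafilter `ω`:
a finitely additive probability (`th_prob`), and `th_sum`: `∑ |⟪U_l δ₁, B⟫|² th ω l S` is the limit of the square averages of
`ms S B`. For `B = δ_k`: `th_dl`, with the weights `pE E l k`.
-/

set_option autoImplicit false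
set_option linter.unusedSectionVars false

open MeasureTheory Filter Topology
open scoped ENNReal ComplexConjugate

namespace Pool.Agent.Helper52.FQ

open Pool.Agent.Helper84 Pool.Agent.Helper84.GN Pool.Agent.Helper84.GN.S3 Pool.Agent.Helper84.GN.S3.X
open Pool.Agent.Helper84.NI Pool.Agent.Helper84.GVN Pool.Agent.Helper90.RK
open Pool.Agent.Helper96.RK Pool.Agent.Helper66.FR Pool.Agent.Helper84.FR Pool.Agent.Helper55.FR
open Pool.Agent.Helper45.FQ (HC pE)
open Pool.Agent.Helper78.BM (adR adR_apply adR_one FullE InvT)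
open Pool.Agent.Helper85.KL (mass FProb)

section Ind

variable {G : Type}

theorem ind_dec (S : Set G) (f : L2 G) (k : G) [Decidable (k ∈ S)] : ind ℂ S f k = if k ∈ S then f k else 0 := by
  rw [ind_apply]
  congr

theorem inner_ind_self (S : Set G) (f : L2 G) : (inner ℂ f (ind ℂ S f) : ℂ) = ((‖ind ℂ S f‖ ^ 2 : ℝ) : ℂ) := by
  classical
  have h1 : (inner ℂ f (ind ℂ S f) : ℂ) = inner ℂ (ind ℂ S f) (ind ℂ S f) := by
    rw [lp.inner_eq_tsum, lp.inner_eq_tsum]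
    congr 1
    funext i
    rw [ind_dec]
    split_ifs
    · rfl
    · rw [inner_zero_right, inner_zero_right]
  rw [h1, inner_self_eq_norm_sq_to_K]
  norm_cast

/-- The mass of a vector. -/
theorem hasSum_ind (S : Set G) (f : L2 G) : HasSum (S.indicator fun k => ‖f k‖ ^ 2) (‖ind ℂ S f‖ ^ 2) := by
  classical
  have h := lv_hasSum (ind ℂ S f)
  convert! h using 2 with k
  rw [ind_dec, Set.indicator_apply]
  split_ifs
  · rfl
  · simp

theorem ind_mono {S T : Set G} (h : S ⊆ T) (f : L2 G) : ‖ind ℂ S f‖ ^ 2 ≤ ‖ind ℂ T f‖ ^ 2 :=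
  hasSum_le (fun _ => Set.indicator_le_indicator_of_subset h (fun _ => by positivity) _) (hasSum_ind S f) (hasSum_ind T f)

theorem ind_union (S T : Set G) (f : L2 G) : ‖ind ℂ (S ∪ T) f‖ ^ 2 ≤ ‖ind ℂ S f‖ ^ 2 + ‖ind ℂ T f‖ ^ 2 := by
  classical
  refine hasSum_le (fun k => ?_) (hasSum_ind (S ∪ T) f) ((hasSum_ind S f).add (hasSum_ind T f))
  have h0 : 0 ≤ ‖f k‖ ^ 2 := by positivity
  by_cases h1 : k ∈ S <;> by_cases h2 : k ∈ T <;> simp [h1, h2, h0]

theorem ind_univ (f : L2 G) : ind ℂ Set.univ f = f := by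
  classical
  apply l2_ext
  intro k
  rw [ind_dec, if_pos (Set.mem_univ k)]

theorem ind_empty (f : L2 G) : ind ℂ ∅ f = 0 := by
  classical
  apply l2_ext
  intro k
  rw [ind_dec, if_neg (Set.notMem_empty k)]
  rfl

theorem ind_sq_le (S : Set G) (f : L2 G) : ‖ind ℂ S f‖ ^ 2 ≤ ‖f‖ ^ 2 := by
  have h := ind_mono (Set.subset_univ S) f
  rwa [ind_univ] at h

end Ind

section Ul

/-- The limit of a bounded real sequence along an ultrafilter. -/
noncomputable def ul (ω : Ultrafilter ℕ) (f : ℕ → ℝ) : ℝ := limUnder (ω : Filter ℕ) f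

variable {ω : Ultrafilter ℕ} {f g : ℕ → ℝ} {C D : ℝ}

theorem ul_tendsto (hf : ∀ n, |f n| ≤ C) : Tendsto f ω (𝓝 (ul ω f)) := by
  have h1 := (isCompact_Icc (a := -C) (b := C)).ultrafilter_le_nhds (ω.map f) (by
    rw [Filter.le_principal_iff, Ultrafilter.coe_map, Filter.mem_map]
    refine Filter.univ_mem' fun n => ?_
    exact ⟨neg_le_of_abs_le (hf n), le_of_abs_le (hf n)⟩)
  obtain ⟨x, _, hx⟩ := h1
  exact tendsto_nhds_limUnder ⟨x, hx⟩

theorem ul_eq {x : ℝ} (h : Tendsto f ω (𝓝 x)) : ul ω f = x := h.limUnder_eq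

theorem ul_mono (hf : ∀ n, |f n| ≤ C) (hg : ∀ n, |g n| ≤ D) (h : ∀ᶠ n in (ω : Filter ℕ), f n ≤ g n) : ul ω f ≤ ul ω g :=
  le_of_tendsto_of_tendsto (ul_tendsto hf) (ul_tendsto hg) h

theorem ul_const {x : ℝ} : ul ω (fun _ => x) = x := ul_eq tendsto_const_nhds

end Ul

section Th

variable {G1 X G Λ : Type} [Group G1] [TopologicalSpace G1] [IsTopologicalGroup G1] [SecondCountableTopology G1] [LocallyCompactSpace G1]
  [MeasurableSpace G1] [BorelSpace G1] [MeasurableSpace X] [MulAction G1 X]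
  [MeasurableConstSMul G1 X] [Group G] [Group Λ] [Countable Λ] {μ : Measure X} [SMulInvariantMeasure G1 X μ]
  [IsProbabilityMeasure μ] {a : Cocy G1 X Λ} {E : Emb Λ G} {w : G1} {j : Λ →* G1} {hm : Measure G1} {σ : X → G1}

/-- The mass of `U_c B U_c'` on `S`, integrated. -/
noncomputable def ms (μ : Measure X) (a : Cocy G1 X Λ) (E : Emb Λ G) (w : G1) (S : Set G) (B : L2 G) : ℕ → ℕ → ℝ :=
  da μ a w fun c c' => ‖ind ℂ S (lr E c c' B)‖ ^ 2

theorem ms_bound (S : Set G) (B : L2 G) (c c' : Λ) : ‖‖ind ℂ S (lr E c c' B)‖ ^ 2‖ ≤ ‖B‖ ^ 2 := by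
  rw [Real.norm_of_nonneg (by positivity)]
  have h := ind_sq_le S (lr E c c' B)
  rwa [LinearIsometryEquiv.norm_map] at h

theorem ms_le (S : Set G) (B : L2 G) (n m : ℕ) : ms μ a E w S B n m ≤ ‖B‖ ^ 2 :=
  (le_abs_self _).trans (norm_da_le (ms_bound S B) n m)

theorem ms_nonneg (S : Set G) (B : L2 G) (n m : ℕ) : 0 ≤ ms μ a E w S B n m :=
  integral_nonneg fun _ => integral_nonneg fun _ => by positivity

theorem ms_mono {S T : Set G} (h : S ⊆ T) (B : L2 G) (n m : ℕ) : ms μ a E w S B n m ≤ ms μ a E w T B n m :=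
  da_mono (ms_bound S B) (ms_bound T B) (fun _ _ => ind_mono h _) n m

theorem ms_union (S T : Set G) (B : L2 G) (n m : ℕ) : ms μ a E w (S ∪ T) B n m ≤ ms μ a E w S B n m + ms μ a E w T B n m := by
  rw [ms, ms, ms, ← da_add (ms_bound S B) (ms_bound T B)]
  refine da_mono (D := ‖B‖ ^ 2 + ‖B‖ ^ 2) (ms_bound _ B) (fun c c' => ?_) (fun _ _ => ind_union _ _ _) n m
  exact (norm_add_le _ _).trans (add_le_add (ms_bound S B c c') (ms_bound T B c c'))

theorem ms_univ (B : L2 G) (n m : ℕ) : ms μ a E w Set.univ B n m = ‖B‖ ^ 2 := by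
  rw [ms]
  have h : (fun c c' : Λ => ‖ind ℂ Set.univ (lr E c c' B)‖ ^ 2) = fun _ _ => ‖B‖ ^ 2 := by
    funext c c'
    rw [ind_univ, LinearIsometryEquiv.norm_map]
  rw [h, da_const]

theorem ms_empty (B : L2 G) (n m : ℕ) : ms μ a E w ∅ B n m = 0 := by
  rw [ms]
  have h : (fun c c' : Λ => ‖ind ℂ ∅ (lr E c c' B)‖ ^ 2) = fun _ _ => (0 : ℝ) := by
    funext c c'
    rw [ind_empty, norm_zero]
    norm_num
  rw [h, da_const]

theorem ms_uv (S : Set G) (l : Λ) :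
    ms μ a E w S (uv E l) = da μ a w fun c c' => ‖ind ℂ S (uv E (c * l * c'))‖ ^ 2 := by
  rw [ms]
  congr 1
  funext c c'
  rw [lr_uv]

theorem mass_pE (S : Set G) (l : Λ) : mass (pE E l) S = ‖ind ℂ S (uv E l)‖ ^ 2 :=
  (hasSum_ind S (uv E l)).tsum_eq

/-- `ms S (U_l δ₁)` in terms of the matrix `pE`. -/
theorem ms_pE (S : Set G) (l : Λ) (n m : ℕ) :
    ms μ a E w S (uv E l) n m = ∫ x, ∫ z, mass (pE E (a.a (w ^ n) x * l * a.a (w ^ m) z)) S ∂μ ∂μ := by
  rw [ms_uv, da]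
  simp only [mass_pE]

theorem qd_ind (S : Set G) (B : L2 G) (n m : ℕ) : qd μ a E w (ind ℂ S) B B n m = ((ms μ a E w S B n m : ℝ) : ℂ) := by
  rw [ms, ← da_ofReal, qd]
  congr 1
  funext c c'
  exact inner_ind_self S _

theorem sa_qd_ind (S : Set G) (B : L2 G) (N : ℕ) :
    sa ℂ (qd μ a E w (ind ℂ S) B B) N = ((sa ℝ (ms μ a E w S B) N : ℝ) : ℂ) := by
  rw [← sa_ofReal]
  congr 1
  funext n m
  exact qd_ind S B n m

theorem abs_sa_ms (S : Set G) (B : L2 G) (N : ℕ) : |sa ℝ (ms μ a E w S B) N| ≤ ‖B‖ ^ 2 :=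
  norm_sa_le ℝ (norm_da_le (ms_bound S B)) N

/-- The laws. -/
noncomputable def th (μ : Measure X) (a : Cocy G1 X Λ) (E : Emb Λ G) (w : G1) (ω : Ultrafilter ℕ) (l : Λ) (S : Set G) : ℝ :=
  ul ω (sa ℝ (ms μ a E w S (uv E l)))

theorem th_tendsto (ω : Ultrafilter ℕ) (l : Λ) (S : Set G) :
    Tendsto (sa ℝ (ms μ a E w S (uv E l))) ω (𝓝 (th μ a E w ω l S)) := ul_tendsto (abs_sa_ms S _)

theorem sa_union (S T : Set G) (B : L2 G) (N : ℕ) :
    sa ℝ (ms μ a E w (S ∪ T) B) N ≤ sa ℝ (ms μ a E w S B) N + sa ℝ (ms μ a E w T B) N := by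
  rw [← sa_add]
  exact sa_mono fun n m _ _ => ms_union S T B n m

/-- **The laws are finitely additive probabilities.** -/
theorem th_prob {ω : Ultrafilter ℕ} (hω : (ω : Filter ℕ) ≤ atTop) (l : Λ) : FProb (th μ a E w ω l) where
  empty := by
    refine ul_eq ?_
    have h : sa ℝ (ms μ a E w ∅ (uv E l)) = fun _ => 0 := by
      funext N
      have h2 : ms μ a E w ∅ (uv E l) = fun _ _ => 0 := by
        funext n m
        exact ms_empty _ n m
      rw [h2]
      simp [sa]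
    rw [h]
    exact tendsto_const_nhds
  univ := by
    refine ul_eq ?_
    refine tendsto_const_nhds.congr' ?_
    have h1 : ∀ᶠ N : ℕ in (ω : Filter ℕ), 1 ≤ N := hω (eventually_ge_atTop 1)
    filter_upwards [h1] with N hN
    have h2 : ms μ a E w Set.univ (uv E l) = fun _ _ => 1 := by
      funext n m
      rw [ms_univ, norm_uv, one_pow]
    rw [h2, sa_const]
    omega
  mono := fun S T h => ul_mono (abs_sa_ms S _) (abs_sa_ms T _) (Eventually.of_forall fun N => sa_mono fun n m _ _ => ms_mono h _ n m)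
  sub := fun S T => by
    have h1 := th_tendsto (μ := μ) (a := a) (E := E) (w := w) ω l (S ∪ T)
    have h2 := (th_tendsto (μ := μ) (a := a) (E := E) (w := w) ω l S).add (th_tendsto (μ := μ) (a := a) (E := E) (w := w) ω l T)
    exact le_of_tendsto_of_tendsto' h1 h2 fun N => sa_union S T _ N

/-- **Diagonality.** -/
theorem th_sum {ω : Ultrafilter ℕ} (hω : (ω : Filter ℕ) ≤ atTop) (h : DD μ a E w j hm σ) (hF : FullE E) (S : Set G) (B : L2 G) :
    Tendsto (sa ℝ (ms μ a E w S B)) ω (𝓝 (∑' l, ‖(inner ℂ (uv E l) B : ℂ)‖ ^ 2 * th μ a E w ω l S)) := by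
  have h1 := (diag_main h hF (ind ℂ S) B).mono_left hω
  have h2 : ∀ N, dgp μ a E w (ind ℂ S) B N = ((∑' l, ‖(inner ℂ (uv E l) B : ℂ)‖ ^ 2 * sa ℝ (ms μ a E w S (uv E l)) N : ℝ) : ℂ) := by
    intro N
    rw [dgp, Complex.ofReal_tsum]
    refine tsum_congr fun l => ?_
    rw [sa_qd_ind, Complex.ofReal_mul]
  have h3 : Tendsto (fun N => ∑' l, ‖(inner ℂ (uv E l) B : ℂ)‖ ^ 2 * sa ℝ (ms μ a E w S (uv E l)) N) ω
      (𝓝 (∑' l, ‖(inner ℂ (uv E l) B : ℂ)‖ ^ 2 * th μ a E w ω l S)) := by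
    refine tendsto_tsum_of_dominated_convergence (bound := fun l => ‖(inner ℂ (uv E l) B : ℂ)‖ ^ 2) (hasSum_sq hF B).summable
      (fun l => (th_tendsto ω l S).const_mul _) (Eventually.of_forall fun N l => ?_)
    rw [norm_mul, Real.norm_of_nonneg (by positivity : (0 : ℝ) ≤ ‖(inner ℂ (uv E l) B : ℂ)‖ ^ 2)]
    have h4 := abs_sa_ms (μ := μ) (a := a) (E := E) (w := w) S (uv E l) N
    rw [norm_uv, one_pow] at h4
    exact mul_le_of_le_one_right (by positivity) h4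
  have h5 : Tendsto (fun N => sa ℝ (ms μ a E w S B) N - ∑' l, ‖(inner ℂ (uv E l) B : ℂ)‖ ^ 2 * sa ℝ (ms μ a E w S (uv E l)) N) ω (𝓝 0) := by
    have h6 := (Complex.continuous_re.tendsto 0).comp h1
    rw [Complex.zero_re] at h6
    refine h6.congr fun N => ?_
    rw [Function.comp_apply, h2, sa_qd_ind, Complex.sub_re, Complex.ofReal_re, Complex.ofReal_re]
  have h7 := h5.add h3
  rw [zero_add] at h7
  exact h7.congr fun N => by ring

theorem inner_uv_dl (l : Λ) (k : G) : ‖(inner ℂ (uv E l) (GVN.dl k : L2 G) : ℂ)‖ ^ 2 = pE E l k := by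
  rw [← inner_conj_symm, RCLike.norm_conj, inner_dl_left]
  rfl

/-- **Diagonality at the vectors `δ_k`.** -/
theorem th_dl {ω : Ultrafilter ℕ} (hω : (ω : Filter ℕ) ≤ atTop) (h : DD μ a E w j hm σ) (hF : FullE E) (S : Set G) (k : G) :
    Tendsto (sa ℝ (ms μ a E w S (GVN.dl k))) ω (𝓝 (∑' l, pE E l k * th μ a E w ω l S)) := by
  have h1 := th_sum hω h hF S (GVN.dl k : L2 G)
  simp only [inner_uv_dl] at h1
  exact h1

end Th

end Pool.Agent.Helper52.FQ
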