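import Mathlib

/-!
# Project FQ (MP_0f6f3f_an), layer D: square averages

`sa 𝕜 f N` is the average of `f n m` over `N ≤ n, m < 2 N`.
-/

set_option autoImplicit false

open Filter Topology

namespace Pool.Agent.Helper52.FQ

section A

variable (𝕜 : Type*) [RCLike 𝕜] {E : Type*} [NormedAddCommGroup E] [NormedSpace 𝕜 E]

/-- The average of `f n m` over `N ≤ n, m < 2 N`. -/
noncomputable def sa (f : ℕ → ℕ → E) (N : ℕ) : E :=
  ((N : 𝕜)⁻¹ ^ 2) • ∑ n ∈ Finset.range N, ∑ m ∈ Finset.range N, f (N + n) (N + m)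

theorem sa_add (f g : ℕ → ℕ → E) (N : ℕ) : sa 𝕜 (fun n m => f n m + g n m) N = sa 𝕜 f N + sa 𝕜 g N := by
  simp only [sa, Finset.sum_add_distrib, smul_add]

theorem sa_sub (f g : ℕ → ℕ → E) (N : ℕ) : sa 𝕜 (fun n m => f n m - g n m) N = sa 𝕜 f N - sa 𝕜 g N := by
  simp only [sa, Finset.sum_sub_distrib, smul_sub]

theorem sa_sum {ι : Type*} (s : Finset ι) (f : ι → ℕ → ℕ → E) (N : ℕ) :
    sa 𝕜 (fun n m => ∑ i ∈ s, f i n m) N = ∑ i ∈ s, sa 𝕜 (f i) N := by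
  classical
  induction s using Finset.induction_on with
  | empty => simp [sa]
  | insert i s hi ih =>
    simp only [Finset.sum_insert hi]
    rw [sa_add, ih]

theorem sa_smul (c : 𝕜) (f : ℕ → ℕ → E) (N : ℕ) : sa 𝕜 (fun n m => c • f n m) N = c • sa 𝕜 f N := by
  simp only [sa, ← Finset.smul_sum]
  rw [smul_comm]

theorem norm_sc (N : ℕ) : ‖((N : 𝕜)⁻¹ ^ 2)‖ = (N : ℝ)⁻¹ ^ 2 := by
  rw [norm_pow, norm_inv, RCLike.norm_natCast]

theorem sa_const (c : E) {N : ℕ} (hN : N ≠ 0) : sa 𝕜 (fun _ _ => c) N = c := by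
  have h : (N : 𝕜) ≠ 0 := Nat.cast_ne_zero.2 hN
  simp only [sa, Finset.sum_const, Finset.card_range]
  rw [← Nat.cast_smul_eq_nsmul 𝕜, ← Nat.cast_smul_eq_nsmul 𝕜, smul_smul, smul_smul]
  have e : (N : 𝕜)⁻¹ ^ 2 * N * N = 1 := by field_simp
  rw [mul_assoc, ← mul_assoc, e, one_smul]

/-- Bounds on the relevant square. -/
theorem norm_sa_le' {f : ℕ → ℕ → E} {C : ℝ} {N : ℕ} (hC : 0 ≤ C) (h : ∀ n m, N ≤ n → N ≤ m → ‖f n m‖ ≤ C) :
    ‖sa 𝕜 f N‖ ≤ C := by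
  rcases eq_or_ne N 0 with rfl | hN
  · simpa [sa] using hC
  have h0 : (0 : ℝ) < N := by exact_mod_cast Nat.pos_of_ne_zero hN
  have h1 : ‖∑ n ∈ Finset.range N, ∑ m ∈ Finset.range N, f (N + n) (N + m)‖ ≤ N * (N * C) := by
    refine (norm_sum_le _ _).trans ?_
    refine (Finset.sum_le_card_nsmul _ _ (N * C) fun n _ => ?_).trans (by simp)
    refine (norm_sum_le _ _).trans ?_
    refine (Finset.sum_le_card_nsmul _ _ C fun m _ => h _ _ (Nat.le_add_right _ _) (Nat.le_add_right _ _)).trans (by simp)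
  rw [sa, norm_smul, norm_sc]
  calc (N : ℝ)⁻¹ ^ 2 * ‖∑ n ∈ Finset.range N, ∑ m ∈ Finset.range N, f (N + n) (N + m)‖
      ≤ (N : ℝ)⁻¹ ^ 2 * (N * (N * C)) := mul_le_mul_of_nonneg_left h1 (by positivity)
    _ = C := by field_simp

theorem norm_sa_le {f : ℕ → ℕ → E} {C : ℝ} (h : ∀ n m, ‖f n m‖ ≤ C) (N : ℕ) : ‖sa 𝕜 f N‖ ≤ C :=
  norm_sa_le' 𝕜 ((norm_nonneg _).trans (h 0 0)) fun n m _ _ => h n m

theorem norm_sa_le_sa (f : ℕ → ℕ → E) (N : ℕ) : ‖sa 𝕜 f N‖ ≤ sa ℝ (fun n m => ‖f n m‖) N := by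
  rw [sa, norm_smul, norm_sc, sa, smul_eq_mul]
  refine mul_le_mul_of_nonneg_left ?_ (by positivity)
  exact (norm_sum_le _ _).trans (Finset.sum_le_sum fun n _ => norm_sum_le _ _)

theorem sa_mono {f g : ℕ → ℕ → ℝ} {N : ℕ} (h : ∀ n m, N ≤ n → N ≤ m → f n m ≤ g n m) : sa ℝ f N ≤ sa ℝ g N := by
  simp only [sa, smul_eq_mul]
  refine mul_le_mul_of_nonneg_left ?_ (by positivity)
  exact Finset.sum_le_sum fun n _ => Finset.sum_le_sum fun m _ => h _ _ (Nat.le_add_right _ _) (Nat.le_add_right _ _)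

theorem sa_nonneg {f : ℕ → ℕ → ℝ} {N : ℕ} (h : ∀ n m, N ≤ n → N ≤ m → 0 ≤ f n m) : 0 ≤ sa ℝ f N := by
  have h1 := sa_mono (f := fun _ _ => 0) (g := f) h
  have h2 : sa ℝ (fun _ _ => (0 : ℝ)) N = 0 := by simp [sa]
  rwa [h2] at h1

theorem sa_zero {f : ℕ → ℕ → E} (h : ∀ ε : ℝ, 0 < ε → ∃ M : ℕ, ∀ n m, M ≤ n → M ≤ m → ‖f n m‖ ≤ ε) :
    Tendsto (sa 𝕜 f) atTop (𝓝 0) := by
  rw [Metric.tendsto_atTop]
  intro ε hε
  obtain ⟨M, hM⟩ := h (ε / 2) (half_pos hε)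
  refine ⟨M, fun N hN => ?_⟩
  rw [dist_zero_right]
  refine (norm_sa_le' 𝕜 (half_pos hε).le fun n m hn hm => hM n m (hN.trans hn) (hN.trans hm)).trans_lt (half_lt_self hε)

theorem norm_sa_succ_left {f : ℕ → ℕ → E} {C : ℝ} (h : ∀ n m, ‖f n m‖ ≤ C) {N : ℕ} (hN : N ≠ 0) :
    ‖sa 𝕜 (fun n m => f (n + 1) m) N - sa 𝕜 f N‖ ≤ 2 * C / N := by
  have h0 : (0 : ℝ) < N := by exact_mod_cast Nat.pos_of_ne_zero hN
  have e : ∑ n ∈ Finset.range N, ∑ m ∈ Finset.range N, f (N + n + 1) (N + m) -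
      ∑ n ∈ Finset.range N, ∑ m ∈ Finset.range N, f (N + n) (N + m) =
      ∑ m ∈ Finset.range N, (f (N + N) (N + m) - f N (N + m)) := by
    rw [← Finset.sum_sub_distrib, Finset.sum_sub_distrib (s := Finset.range N) (f := fun m => f (N + N) (N + m))]
    exact Finset.sum_range_sub (fun n => ∑ m ∈ Finset.range N, f (N + n) (N + m)) N
  rw [sa, sa, ← smul_sub, e, norm_smul, norm_sc]
  have h1 : ‖∑ m ∈ Finset.range N, (f (N + N) (N + m) - f N (N + m))‖ ≤ N * (2 * C) := by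
    refine (norm_sum_le _ _).trans ?_
    refine (Finset.sum_le_card_nsmul _ _ (2 * C) fun m _ => ?_).trans (by simp)
    refine (norm_sub_le _ _).trans ?_
    linarith [h (N + N) (N + m), h N (N + m)]
  calc (N : ℝ)⁻¹ ^ 2 * ‖∑ m ∈ Finset.range N, (f (N + N) (N + m) - f N (N + m))‖
      ≤ (N : ℝ)⁻¹ ^ 2 * (N * (2 * C)) := mul_le_mul_of_nonneg_left h1 (by positivity)
    _ = 2 * C / N := by field_simp

theorem sa_swap (f : ℕ → ℕ → E) (N : ℕ) : sa 𝕜 (fun n m => f m n) N = sa 𝕜 f N := by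
  simp only [sa]
  rw [Finset.sum_comm]

theorem norm_sa_succ_right {f : ℕ → ℕ → E} {C : ℝ} (h : ∀ n m, ‖f n m‖ ≤ C) {N : ℕ} (hN : N ≠ 0) :
    ‖sa 𝕜 (fun n m => f n (m + 1)) N - sa 𝕜 f N‖ ≤ 2 * C / N := by
  have h1 := norm_sa_succ_left 𝕜 (f := fun n m => f m n) (fun n m => h m n) hN
  rw [← sa_swap 𝕜 f, ← sa_swap 𝕜 fun n m => f n (m + 1)]
  exact h1

theorem sa_clm {F : Type*} [NormedAddCommGroup F] [NormedSpace 𝕜 F] (T : E →L[𝕜] F) (f : ℕ → ℕ → E) (N : ℕ) :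
    T (sa 𝕜 f N) = sa 𝕜 (fun n m => T (f n m)) N := by
  simp only [sa, map_smul, map_sum]

theorem sa_ofReal (f : ℕ → ℕ → ℝ) (N : ℕ) : sa ℂ (fun n m => (f n m : ℂ)) N = ((sa ℝ f N : ℝ) : ℂ) := by
  simp only [sa, smul_eq_mul]
  push_cast
  rfl

end A

end Pool.Agent.Helper52.FQ
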