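import Pool.Agent.Helper52.FQ.Off
import Pool.Agent.Helper85.KL.Kernel

/-!
# Project FQ (MP_0f6f3f_an), layer D: diagonality

`qd T B B' = ∫∫ ⟪U_c B U_c', T (U_c B' U_c')⟫`. `diag_main`: the square averages of `qd T B B` minus `∑ |⟪U_l δ₁, B⟫|²` times the square averages of `qd T (U_l δ₁) (U_l δ₁)` converge to zero.
`ms S B = ∫∫ |1_S (U_c B U_c')|²`, `th ω l S` the limit of the square averages of `ms S (U_l δ₁)` along the ultrafilter `ω`: a finitely additive probability (`th_prob`), and `th_sum`: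
`∑ |⟪U_l δ₁, B⟫|² th ω l S` is the limit of the square averages of `ms S B`.
-/

set_option autoImplicit false
set_option linter.unusedSectionVars false

open MeasureTheory Filter Topology
open scoped ENNReal ComplexConjugate

namespace Pool.Agent.Helper52.FQ

open Pool.Agent.Helper84 Pool.Agent.Helper84.GN Pool.Agent.Helper84.GN.S3 Pool.Agent.Helper84.GN.S3.X
open Pool.Agent.Helper84.NI Pool.Agent.Helper84.GVN Pool.Agent.Helper90.RK
open Pool.Agent.Helper96.RK Pool.Agent.Helper66.FR Pool.Agent.Helper84.FR Pool.Agent.Helper55.FR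
open Pool.Agent.Helper45.FQ (HC)
open Pool.Agent.Helper78.BM (adR adR_apply adR_one FullE InvT)

section Basis

variable {G Λ : Type} [Group G] [Group Λ] {E : Emb Λ G}

theorem orth_uv (E : Emb Λ G) : Orthonormal ℂ (uv E) :=
  ⟨fun l => norm_uv E l, fun _ _ h => inner_uv E h⟩

/-- The basis of the `U_l δ₁`. -/
noncomputable def hb (hF : FullE E) : HilbertBasis Λ ℂ (L2 G) :=
  HilbertBasis.mkOfOrthogonalEqBot (orth_uv E) (by
    rw [Submodule.eq_bot_iff]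
    intro w hw
    refine hF w fun l => ?_
    exact (Submodule.mem_orthogonal _ _).1 hw _ (Submodule.subset_span ⟨l, rfl⟩))

theorem hb_apply (hF : FullE E) (l : Λ) : hb hF l = uv E l := by
  rw [hb, HilbertBasis.coe_mkOfOrthogonalEqBot]

theorem hasSum_uv (hF : FullE E) (B : L2 G) : HasSum (fun l => (inner ℂ (uv E l) B : ℂ) • uv E l) B := by
  have h := (hb hF).hasSum_repr B
  convert! h using 2 with l
  rw [hb_apply, HilbertBasis.repr_apply_apply, hb_apply]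

theorem hasSum_sq (hF : FullE E) (B : L2 G) : HasSum (fun l => ‖(inner ℂ (uv E l) B : ℂ)‖ ^ 2) (‖B‖ ^ 2) := by
  have h := (hb hF).hasSum_inner_mul_inner B B
  have h2 := Complex.hasSum_re h
  have e : ((inner ℂ B B : ℂ)).re = ‖B‖ ^ 2 := inner_self_eq_norm_sq (𝕜 := ℂ) B
  rw [e] at h2
  convert! h2 using 2 with l
  rw [hb_apply, ← inner_conj_symm B (uv E l), ← Complex.normSq_eq_conj_mul_self, Complex.normSq_eq_norm_sq]
  norm_cast

end Basis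

/-- The tail of a weighted sum. -/
theorem tail_le {Λ : Type} {p : Λ → ℝ} {P : ℝ} (hp0 : ∀ l, 0 ≤ p l) (hp : HasSum p P) (f : Λ → ℂ) {M : ℝ} (hM : ∀ l, ‖f l‖ ≤ M)
    (s : Finset Λ) : ‖∑' l, ((p l : ℝ) : ℂ) * f l - ∑ l ∈ s, ((p l : ℝ) : ℂ) * f l‖ ≤ M * (P - ∑ l ∈ s, p l) := by
  classical
  have hb : ∀ l, ‖((p l : ℝ) : ℂ) * f l‖ ≤ p l * M := fun l => by
    rw [norm_mul, Complex.norm_real, Real.norm_of_nonneg (hp0 l)]
    exact mul_le_mul_of_nonneg_left (hM l) (hp0 l)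
  have hs : Summable fun l => ((p l : ℝ) : ℂ) * f l := Summable.of_norm_bounded (hp.summable.mul_right M) hb
  have h1 := hs.sum_add_tsum_compl (s := s)
  have h2 := hp.summable.sum_add_tsum_compl (s := s)
  rw [hp.tsum_eq] at h2
  rw [← h1, add_sub_cancel_left]
  have h3 : HasSum (fun l : ((s : Set Λ)ᶜ : Set Λ) => p l * M) ((∑' l : ((s : Set Λ)ᶜ : Set Λ), p l) * M) :=
    (hp.summable.subtype _).hasSum.mul_right M
  refine (tsum_of_norm_bounded h3 fun l => hb l).trans ?_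
  rw [← h2, add_sub_cancel_left, mul_comm]

section Diag

variable {G1 X G Λ : Type} [Group G1] [TopologicalSpace G1] [IsTopologicalGroup G1] [SecondCountableTopology G1] [LocallyCompactSpace G1]
  [MeasurableSpace G1] [BorelSpace G1] [MeasurableSpace X] [MulAction G1 X]
  [MeasurableConstSMul G1 X] [Group G] [Group Λ] [Countable Λ] {μ : Measure X} [SMulInvariantMeasure G1 X μ]
  [IsProbabilityMeasure μ] {a : Cocy G1 X Λ} {E : Emb Λ G} {w : G1} {j : Λ →* G1} {hm : Measure G1} {σ : X → G1}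

/-- The sesquilinear forms. -/
noncomputable def qd (μ : Measure X) (a : Cocy G1 X Λ) (E : Emb Λ G) (w : G1) (T : L2 G →L[ℂ] L2 G) (B B' : L2 G) : ℕ → ℕ → ℂ :=
  da μ a w fun c c' => (inner ℂ (lr E c c' B) (T (lr E c c' B')) : ℂ)

theorem in_le (T : L2 G →L[ℂ] L2 G) (B B' : L2 G) (c c' : Λ) : ‖(inner ℂ (lr E c c' B) (T (lr E c c' B')) : ℂ)‖ ≤ ‖T‖ * ‖B‖ * ‖B'‖ := by
  refine (norm_inner_le_norm _ _).trans ?_
  rw [LinearIsometryEquiv.norm_map]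
  have h := T.le_opNorm (lr E c c' B')
  rw [LinearIsometryEquiv.norm_map] at h
  nlinarith [norm_nonneg B]

theorem norm_qd_le (T : L2 G →L[ℂ] L2 G) (B B' : L2 G) (n m : ℕ) : ‖qd μ a E w T B B' n m‖ ≤ ‖T‖ * ‖B‖ * ‖B'‖ :=
  norm_da_le (in_le T B B') n m

theorem qd_sub_left (T : L2 G →L[ℂ] L2 G) (B D B' : L2 G) (n m : ℕ) :
    qd μ a E w T (B - D) B' n m = qd μ a E w T B B' n m - qd μ a E w T D B' n m := by
  rw [qd, qd, qd, ← da_sub (in_le T B B') (in_le T D B')]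
  congr 1
  funext c c'
  rw [map_sub, inner_sub_left]

theorem qd_sub_right (T : L2 G →L[ℂ] L2 G) (B B' D : L2 G) (n m : ℕ) :
    qd μ a E w T B (B' - D) n m = qd μ a E w T B B' n m - qd μ a E w T B D n m := by
  rw [qd, qd, qd, ← da_sub (in_le T B B') (in_le T B D)]
  congr 1
  funext c c'
  rw [map_sub, map_sub, inner_sub_right]

theorem qd_uv (T : L2 G →L[ℂ] L2 G) (l l' : Λ) :
    qd μ a E w T (uv E l') (uv E l) = da μ a w fun c c' => (inner ℂ (uv E (c * l' * c')) (T (uv E (c * l * c'))) : ℂ) := by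
  rw [qd]
  congr 1
  funext c c'
  rw [lr_uv, lr_uv]

/-- Finite combinations. -/
theorem qd_fin (T : L2 G →L[ℂ] L2 G) (s : Finset Λ) (b : Λ → ℂ) (n m : ℕ) :
    qd μ a E w T (∑ l ∈ s, b l • uv E l) (∑ l ∈ s, b l • uv E l) n m =
      ∑ p ∈ s ×ˢ s, conj (b p.1) * b p.2 * qd μ a E w T (uv E p.1) (uv E p.2) n m := by
  have h1 : ∀ p ∈ s ×ˢ s, ∀ c c' : Λ, ‖conj (b p.1) * b p.2 * (inner ℂ (lr E c c' (uv E p.1)) (T (lr E c c' (uv E p.2))) : ℂ)‖ ≤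
      ‖conj (b p.1) * b p.2‖ * (‖T‖ * ‖uv E p.1‖ * ‖uv E p.2‖) := by
    intro p _ c c'
    rw [norm_mul]
    exact mul_le_mul_of_nonneg_left (in_le T _ _ c c') (norm_nonneg _)
  have h2 := da_sum (μ := μ) (a := a) (w := w) (s ×ˢ s) h1 n m
  have h3 : ∀ p : Λ × Λ, da μ a w (fun c c' => conj (b p.1) * b p.2 * (inner ℂ (lr E c c' (uv E p.1)) (T (lr E c c' (uv E p.2))) : ℂ)) n m =
      conj (b p.1) * b p.2 * qd μ a E w T (uv E p.1) (uv E p.2) n m := fun p => da_mul _ _ n m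
  rw [Finset.sum_congr rfl fun p _ => h3 p] at h2
  rw [← h2, qd]
  congr 1
  funext c c'
  rw [map_sum, map_sum, sum_inner, Finset.sum_product]
  refine Finset.sum_congr rfl fun l _ => ?_
  rw [inner_sum]
  refine Finset.sum_congr rfl fun l' _ => ?_
  rw [map_smul, map_smul, map_smul, inner_smul_left, inner_smul_right]
  ring

/-- The form at a vector and its diagonal part. -/
noncomputable def dgp (μ : Measure X) (a : Cocy G1 X Λ) (E : Emb Λ G) (w : G1) (T : L2 G →L[ℂ] L2 G) (B : L2 G) (N : ℕ) : ℂ :=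
  ∑' l, ((‖(inner ℂ (uv E l) B : ℂ)‖ ^ 2 : ℝ) : ℂ) * sa ℂ (qd μ a E w T (uv E l) (uv E l)) N

theorem norm_sa_qd_le (T : L2 G →L[ℂ] L2 G) (B B' : L2 G) (N : ℕ) : ‖sa ℂ (qd μ a E w T B B') N‖ ≤ ‖T‖ * ‖B‖ * ‖B'‖ :=
  norm_sa_le ℂ (norm_qd_le T B B') N

theorem norm_sa_uv_le (T : L2 G →L[ℂ] L2 G) (l : Λ) (N : ℕ) : ‖sa ℂ (qd μ a E w T (uv E l) (uv E l)) N‖ ≤ ‖T‖ := by
  have h := norm_sa_qd_le (μ := μ) (a := a) (E := E) (w := w) T (uv E l) (uv E l) N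
  rwa [norm_uv, mul_one, mul_one] at h

theorem summ_dg (hF : FullE E) (T : L2 G →L[ℂ] L2 G) (B : L2 G) (N : ℕ) :
    Summable fun l => ((‖(inner ℂ (uv E l) B : ℂ)‖ ^ 2 : ℝ) : ℂ) * sa ℂ (qd μ a E w T (uv E l) (uv E l)) N := by
  refine Summable.of_norm_bounded ((hasSum_sq hF B).summable.mul_right ‖T‖) fun l => ?_
  rw [norm_mul, Complex.norm_real, Real.norm_of_nonneg (by positivity)]
  exact mul_le_mul_of_nonneg_left (norm_sa_uv_le T l N) (by positivity)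

/-- **Diagonality, finite combinations.** -/
theorem diag_fin (h : DD μ a E w j hm σ) (T : L2 G →L[ℂ] L2 G) (s : Finset Λ) (b : Λ → ℂ) :
    Tendsto (fun N => sa ℂ (qd μ a E w T (∑ l ∈ s, b l • uv E l) (∑ l ∈ s, b l • uv E l)) N -
      ∑ l ∈ s, ((‖b l‖ ^ 2 : ℝ) : ℂ) * sa ℂ (qd μ a E w T (uv E l) (uv E l)) N) atTop (𝓝 0) := by
  classical
  have h1 : ∀ p ∈ s ×ˢ s, Tendsto (fun N => if p.1 = p.2 then (0 : ℂ) else
      conj (b p.1) * b p.2 * sa ℂ (qd μ a E w T (uv E p.1) (uv E p.2)) N) atTop (𝓝 0) := by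
    intro p _
    split_ifs with hp
    · exact tendsto_const_nhds
    · have h2 := off_diag h T (l := p.2) (l' := p.1) (Ne.symm hp)
      rw [← qd_uv] at h2
      have h3 := h2.const_mul (conj (b p.1) * b p.2)
      rwa [mul_zero] at h3
  have h2 := tendsto_finsetSum _ h1
  rw [Finset.sum_const_zero] at h2
  refine h2.congr fun N => ?_
  have e1 : sa ℂ (qd μ a E w T (∑ l ∈ s, b l • uv E l) (∑ l ∈ s, b l • uv E l)) N =
      ∑ p ∈ s ×ˢ s, conj (b p.1) * b p.2 * sa ℂ (qd μ a E w T (uv E p.1) (uv E p.2)) N := by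
    have e2 : qd μ a E w T (∑ l ∈ s, b l • uv E l) (∑ l ∈ s, b l • uv E l) =
        fun n m => ∑ p ∈ s ×ˢ s, (conj (b p.1) * b p.2) • qd μ a E w T (uv E p.1) (uv E p.2) n m := by
      funext n m
      exact qd_fin T s b n m
    rw [e2, sa_sum]
    refine Finset.sum_congr rfl fun p _ => ?_
    rw [sa_smul, smul_eq_mul]
  have e3 : ∑ l ∈ s, ((‖b l‖ ^ 2 : ℝ) : ℂ) * sa ℂ (qd μ a E w T (uv E l) (uv E l)) N =
      ∑ p ∈ s ×ˢ s, if p.1 = p.2 then conj (b p.1) * b p.2 * sa ℂ (qd μ a E w T (uv E p.1) (uv E p.2)) N else 0 := by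
    rw [Finset.sum_product]
    refine Finset.sum_congr rfl fun l hl => ?_
    rw [Finset.sum_ite_eq s l fun l' => conj (b l) * b l' * sa ℂ (qd μ a E w T (uv E l) (uv E l')) N, if_pos hl,
      ← Complex.normSq_eq_conj_mul_self, Complex.normSq_eq_norm_sq]
  rw [e1, e3, ← Finset.sum_sub_distrib]
  refine Finset.sum_congr rfl fun p _ => ?_
  split_ifs <;> ring

/-- The form is continuous. -/
theorem form_near (T : L2 G →L[ℂ] L2 G) (B Bs : L2 G) {δ : ℝ} (hd : ‖B - Bs‖ ≤ δ) (hδ1 : δ ≤ 1) (N : ℕ) :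
    ‖sa ℂ (qd μ a E w T B B) N - sa ℂ (qd μ a E w T Bs Bs) N‖ ≤ ‖T‖ * (2 * ‖B‖ + 1) * δ := by
  have e1 : sa ℂ (qd μ a E w T B B) N - sa ℂ (qd μ a E w T Bs Bs) N =
      sa ℂ (qd μ a E w T (B - Bs) B) N + sa ℂ (qd μ a E w T Bs (B - Bs)) N := by
    rw [← sa_sub, ← sa_add]
    congr 1
    funext n m
    rw [qd_sub_left, qd_sub_right]
    ring
  rw [e1]
  refine (norm_add_le _ _).trans ?_
  have h7 := norm_sa_qd_le (μ := μ) (a := a) (E := E) (w := w) T (B - Bs) B N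
  have h8 := norm_sa_qd_le (μ := μ) (a := a) (E := E) (w := w) T Bs (B - Bs) N
  have h9 : ‖Bs‖ ≤ ‖B‖ + 1 := by
    calc ‖Bs‖ = ‖B - (B - Bs)‖ := by rw [sub_sub_cancel]
      _ ≤ ‖B‖ + ‖B - Bs‖ := norm_sub_le _ _
      _ ≤ ‖B‖ + 1 := by linarith
  have hT := norm_nonneg T
  have hB := norm_nonneg B
  calc ‖sa ℂ (qd μ a E w T (B - Bs) B) N‖ + ‖sa ℂ (qd μ a E w T Bs (B - Bs)) N‖
      ≤ ‖T‖ * ‖B - Bs‖ * ‖B‖ + ‖T‖ * ‖Bs‖ * ‖B - Bs‖ := add_le_add h7 h8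
    _ = ‖T‖ * (‖B‖ + ‖Bs‖) * ‖B - Bs‖ := by ring
    _ ≤ ‖T‖ * (2 * ‖B‖ + 1) * δ := by
      refine mul_le_mul (mul_le_mul_of_nonneg_left (by linarith) hT) hd (norm_nonneg _) (by positivity)

/-- The diagonal part is close to a finite sum. -/
theorem dgp_near (hF : FullE E) (T : L2 G →L[ℂ] L2 G) (B : L2 G) (s : Finset Λ) (N : ℕ) :
    ‖dgp μ a E w T B N - ∑ l ∈ s, ((‖(inner ℂ (uv E l) B : ℂ)‖ ^ 2 : ℝ) : ℂ) * sa ℂ (qd μ a E w T (uv E l) (uv E l)) N‖ ≤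
      ‖T‖ * (‖B‖ ^ 2 - ∑ l ∈ s, ‖(inner ℂ (uv E l) B : ℂ)‖ ^ 2) :=
  tail_le (p := fun l => ‖(inner ℂ (uv E l) B : ℂ)‖ ^ 2) (fun _ => by positivity) (hasSum_sq hF B) _ (fun l => norm_sa_uv_le T l N) s

/-- Good finite sets. -/
theorem good_set (hF : FullE E) (B : L2 G) {δ : ℝ} (hδ : 0 < δ) :
    ∃ s : Finset Λ, ‖B - ∑ l ∈ s, (inner ℂ (uv E l) B : ℂ) • uv E l‖ ≤ δ ∧ ‖B‖ ^ 2 - ∑ l ∈ s, ‖(inner ℂ (uv E l) B : ℂ)‖ ^ 2 ≤ δ := by
  have h3 : ∀ᶠ s : Finset Λ in atTop, ‖B - ∑ l ∈ s, (inner ℂ (uv E l) B : ℂ) • uv E l‖ < δ := by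
    have h4 := Metric.tendsto_nhds.1 (hasSum_uv hF B) δ hδ
    filter_upwards [h4] with s hs
    rwa [dist_comm, dist_eq_norm] at hs
  have h4 : ∀ᶠ s : Finset Λ in atTop, ‖B‖ ^ 2 - ∑ l ∈ s, ‖(inner ℂ (uv E l) B : ℂ)‖ ^ 2 < δ := by
    have h5 := Metric.tendsto_nhds.1 (hasSum_sq hF B) δ hδ
    filter_upwards [h5] with s hs
    rw [dist_comm, dist_eq_norm, Real.norm_eq_abs] at hs
    exact (le_abs_self _).trans_lt hs
  obtain ⟨s, hs1, hs2⟩ := (h3.and h4).exists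
  exact ⟨s, hs1.le, hs2.le⟩

/-- **Diagonality.** -/
theorem diag_main (h : DD μ a E w j hm σ) (hF : FullE E) (T : L2 G →L[ℂ] L2 G) (B : L2 G) :
    Tendsto (fun N => sa ℂ (qd μ a E w T B B) N - dgp μ a E w T B N) atTop (𝓝 0) := by
  rw [Metric.tendsto_atTop]
  intro ε hε
  obtain ⟨K, hK⟩ : ∃ K : ℝ, K = ‖T‖ * (2 * ‖B‖ + 1) + ‖T‖ + 1 := ⟨_, rfl⟩
  have hT := norm_nonneg T
  have hB := norm_nonneg B
  have hK0 : 0 < K := by rw [hK]; positivity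
  obtain ⟨δ, hδ0, hδ1, hδ2⟩ : ∃ δ : ℝ, 0 < δ ∧ δ ≤ 1 ∧ K * δ ≤ ε / 2 := by
    refine ⟨min 1 (ε / (2 * K)), lt_min one_pos (by positivity), min_le_left _ _, ?_⟩
    calc K * min 1 (ε / (2 * K)) ≤ K * (ε / (2 * K)) := mul_le_mul_of_nonneg_left (min_le_right _ _) hK0.le
      _ = ε / 2 := by field_simp
  obtain ⟨s, hs1, hs2⟩ := good_set hF B hδ0
  obtain ⟨M, hM⟩ := Metric.tendsto_atTop.1 (diag_fin h T s fun l => inner ℂ (uv E l) B) (ε / 2) (half_pos hε)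
  refine ⟨M, fun N hN => ?_⟩
  have h5 := hM N hN
  rw [dist_zero_right] at h5 ⊢
  have h6 := form_near (μ := μ) (a := a) (E := E) (w := w) T B _ hs1 hδ1 N
  have h7 := dgp_near (μ := μ) (a := a) (w := w) hF T B s N
  generalize sa ℂ (qd μ a E w T (∑ l ∈ s, (inner ℂ (uv E l) B : ℂ) • uv E l) (∑ l ∈ s, (inner ℂ (uv E l) B : ℂ) • uv E l)) N = y at h5 h6
  generalize ∑ l ∈ s, ((‖(inner ℂ (uv E l) B : ℂ)‖ ^ 2 : ℝ) : ℂ) * sa ℂ (qd μ a E w T (uv E l) (uv E l)) N = z at h5 h7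
  have h7' : ‖dgp μ a E w T B N - z‖ ≤ ‖T‖ * δ := h7.trans (mul_le_mul_of_nonneg_left hs2 hT)
  have e1 : sa ℂ (qd μ a E w T B B) N - dgp μ a E w T B N = (sa ℂ (qd μ a E w T B B) N - y) + (y - z) - (dgp μ a E w T B N - z) := by ring
  rw [e1]
  have h8 := norm_sub_le ((sa ℂ (qd μ a E w T B B) N - y) + (y - z)) (dgp μ a E w T B N - z)
  have h9 := norm_add_le (sa ℂ (qd μ a E w T B B) N - y) (y - z)
  have h10 : ‖T‖ * (2 * ‖B‖ + 1) * δ + ‖T‖ * δ ≤ K * δ := by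
    rw [hK]
    nlinarith
  linarith

end Diag

end Pool.Agent.Helper52.FQ
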