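import Pool.Agent.Helper52.FQ.Int

/-!
# Project FQ (MP_0f6f3f_an), layer D: the off-diagonal terms

`uv E l = U_l δ₁`, `lr E c c' B = U_c B U_c'`. `da ψ n m = ∫∫ ψ(a(w^n, x), a(w^m, z)) dz dx`. `off_diag`: for `l ≠ l'` and every bounded operator `T` the square averages of
`∫∫ ⟪U_(c l' c') δ₁, T (U_(c l c') δ₁)⟫`, `c = a(w^n, x)`, `c' = a(w^m, z)`, converge to zero.
-/

set_option autoImplicit false
set_option linter.unusedSectionVars false

open MeasureTheory Filter Topology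
open scoped ENNReal ComplexConjugate

namespace Pool.Agent.Helper52.FQ

open Pool.Agent.Helper84 Pool.Agent.Helper84.GN Pool.Agent.Helper84.GN.S3 Pool.Agent.Helper84.GN.S3.X
open Pool.Agent.Helper84.NI Pool.Agent.Helper84.GVN Pool.Agent.Helper90.RK
open Pool.Agent.Helper96.RK Pool.Agent.Helper66.FR Pool.Agent.Helper84.FR Pool.Agent.Helper55.FR
open Pool.Agent.Helper45.FQ (HC)
open Pool.Agent.Helper78.BM (adR adR_apply adR_one FullE InvT)

section Alg

variable {G Λ : Type} [Group G] [Group Λ] (E : Emb Λ G)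

/-- The vector `U_l δ₁`. -/
noncomputable def uv (l : Λ) : L2 G := E.U l (GVN.dl 1)

theorem uv_cf (l : Λ) : uv E l = cf (E.U l) := rfl

theorem norm_uv (l : Λ) : ‖uv E l‖ = 1 := by
  rw [uv, LinearIsometryEquiv.norm_map, norm_dl]

/-- The product `U_c B U_c'`. -/
noncomputable def lr (c c' : Λ) : L2 G ≃ₗᵢ[ℂ] L2 G := E.U c * jjU (E.U c'⁻¹)

theorem lr_apply (c c' : Λ) (B : L2 G) : lr E c c' B = E.U c (jjU (E.U c'⁻¹) B) := rfl

theorem jj_uv (c l : Λ) : jjU (E.U c⁻¹) (uv E l) = uv E (l * c) := by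
  rw [uv, jj_comm (E.comm l) (E.comm c⁻¹), map_inv, jj_dl (E.comm c)]
  have h1 : lamU (1 : G) (cf (E.U c)) = cf (E.U c) := by
    rw [lamU_one]
    rfl
  rw [h1, uv, map_mul]
  rfl

theorem lr_uv (c c' l : Λ) : lr E c c' (uv E l) = uv E (c * l * c') := by
  rw [lr_apply, jj_uv, uv, uv, mul_assoc, map_mul E.U c]
  rfl

theorem inner_uv {l l' : Λ} (h : l ≠ l') : inner ℂ (uv E l) (uv E l') = (0 : ℂ) := by
  have h1 : (inner ℂ (uv E l) (uv E l') : ℂ) = inner ℂ (GVN.dl 1) (uv E (l⁻¹ * l')) := by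
    rw [← (E.U l).inner_map_map (GVN.dl 1) (uv E (l⁻¹ * l'))]
    have h2 : E.U l (uv E (l⁻¹ * l')) = uv E l' := by
      rw [uv, uv]
      have h3 : E.U l (E.U (l⁻¹ * l') (GVN.dl 1)) = (E.U l * E.U (l⁻¹ * l')) (GVN.dl 1) := rfl
      rw [h3, ← map_mul, mul_inv_cancel_left]
    rw [h2]
    rfl
  rw [h1, inner_dl_left]
  exact E.tr _ fun h2 => h (inv_mul_eq_one.1 h2)

theorem conj_conj_U (l : Λ) : E.conj.conj.U l = E.U l := by
  ext f : 1
  change cj (cj (E.U l (cj (cj f)))) = E.U l f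
  rw [cj_cj, cj_cj]

theorem ad_apply (c : Λ) (f : L2 G) : adR E.conj c f = E.U c (jjU (E.U c) f) := by
  have h : adR E.conj c f = E.conj.conj.U c (jjU (E.conj.conj.U c) f) := rfl
  rw [h, conj_conj_U]

theorem ad_uv (c d : Λ) : adR E.conj c (uv E d) = uv E (c * d * c⁻¹) := by
  have h := lr_uv E c c⁻¹ d
  rw [lr_apply, inv_inv] at h
  rw [ad_apply, h]

/-- The vectors `U_e^* T U_e δ₁`. -/
noncomputable def kT (T : L2 G →L[ℂ] L2 G) (e : Λ) : L2 G := E.U e⁻¹ (T (uv E e))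

theorem norm_kT_le (T : L2 G →L[ℂ] L2 G) (e : Λ) : ‖kT E T e‖ ≤ ‖T‖ := by
  rw [kT, LinearIsometryEquiv.norm_map]
  have h := T.le_opNorm (uv E e)
  rwa [norm_uv, mul_one] at h

theorem inner_kT (T : L2 G →L[ℂ] L2 G) (c c' l d : Λ) :
    (inner ℂ (uv E d) (adR E.conj c' (kT E T (c * l * c'))) : ℂ) = inner ℂ (uv E (c * (l * d) * c')) (T (uv E (c * l * c'))) := by
  have h1 : uv E d = adR E.conj c' (uv E (c'⁻¹ * d * c')) := by
    rw [ad_uv]
    congr 1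
    group
  have h2 : (inner ℂ (uv E d) (adR E.conj c' (kT E T (c * l * c'))) : ℂ) = inner ℂ (uv E (c'⁻¹ * d * c')) (kT E T (c * l * c')) := by
    conv_lhs => rw [h1]
    exact (adR E.conj c').inner_map_map _ _
  rw [h2, kT, ← (E.U (c * l * c')).inner_map_map]
  have h3 : E.U (c * l * c') (E.U (c * l * c')⁻¹ (T (uv E (c * l * c')))) = T (uv E (c * l * c')) := by
    have h4 : E.U (c * l * c') (E.U (c * l * c')⁻¹ (T (uv E (c * l * c')))) =
        (E.U (c * l * c') * E.U (c * l * c')⁻¹) (T (uv E (c * l * c'))) := rfl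
    rw [h4, ← map_mul, mul_inv_cancel, map_one]
    rfl
  have h5 : E.U (c * l * c') (uv E (c'⁻¹ * d * c')) = uv E (c * (l * d) * c') := by
    have h6 : E.U (c * l * c') (uv E (c'⁻¹ * d * c')) = (E.U (c * l * c') * E.U (c'⁻¹ * d * c')) (GVN.dl 1) := rfl
    rw [h6, ← map_mul, uv]
    congr 2
    group
  rw [h3, h5]

end Alg

section Da

variable {G1 X Λ : Type} [Group G1] [MeasurableSpace X] [MulAction G1 X] [Group Λ] [Countable Λ] {μ : Measure X}
  [IsProbabilityMeasure μ] {a : Cocy G1 X Λ} {w : G1} {F : Type} [NormedAddCommGroup F] [NormedSpace ℝ F] {ψ φ : Λ → Λ → F} {C D : ℝ}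

/-- The double integral of a function of the two cocycles. -/
noncomputable def da (μ : Measure X) (a : Cocy G1 X Λ) (w : G1) (ψ : Λ → Λ → F) (n m : ℕ) : F :=
  ∫ x, ∫ z, ψ (a.a (w ^ n) x) (a.a (w ^ m) z) ∂μ ∂μ

theorem da_in {g : G1} {f : Λ → F} (hf : ∀ c, ‖f c‖ ≤ C) : Integrable (fun z => f (a.a g z)) μ :=
  (integrable_const C).mono' (sm_mea (fun l => a.meas g l) f).aestronglyMeasurable (ae_of_all _ fun _ => hf _)

theorem norm_in_le {g : G1} {f : Λ → F} (hf : ∀ c, ‖f c‖ ≤ C) : ‖∫ z, f (a.a g z) ∂μ‖ ≤ C := by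
  have h := norm_integral_le_of_norm_le_const (μ := μ) (f := fun z => f (a.a g z)) (ae_of_all _ fun z => hf _)
  simpa using h

theorem da_out (hψ : ∀ c c', ‖ψ c c'‖ ≤ C) (n m : ℕ) : Integrable (fun x => ∫ z, ψ (a.a (w ^ n) x) (a.a (w ^ m) z) ∂μ) μ :=
  da_in (f := fun c => ∫ z, ψ c (a.a (w ^ m) z) ∂μ) fun c => norm_in_le (hψ c)

theorem norm_da_le (hψ : ∀ c c', ‖ψ c c'‖ ≤ C) (n m : ℕ) : ‖da μ a w ψ n m‖ ≤ C :=
  norm_in_le (f := fun c => ∫ z, ψ c (a.a (w ^ m) z) ∂μ) fun c => norm_in_le (hψ c)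

theorem da_add (hψ : ∀ c c', ‖ψ c c'‖ ≤ C) (hφ : ∀ c c', ‖φ c c'‖ ≤ D) (n m : ℕ) :
    da μ a w (fun c c' => ψ c c' + φ c c') n m = da μ a w ψ n m + da μ a w φ n m := by
  rw [da, da, da, ← integral_add (da_out hψ n m) (da_out hφ n m)]
  refine integral_congr_ae (ae_of_all _ fun x => ?_)
  exact integral_add (da_in (hψ _)) (da_in (hφ _))

theorem da_sub (hψ : ∀ c c', ‖ψ c c'‖ ≤ C) (hφ : ∀ c c', ‖φ c c'‖ ≤ D) (n m : ℕ) :
    da μ a w (fun c c' => ψ c c' - φ c c') n m = da μ a w ψ n m - da μ a w φ n m := by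
  rw [da, da, da, ← integral_sub (da_out hψ n m) (da_out hφ n m)]
  refine integral_congr_ae (ae_of_all _ fun x => ?_)
  exact integral_sub (da_in (hψ _)) (da_in (hφ _))

theorem da_const [CompleteSpace F] (c : F) (n m : ℕ) : da μ a w (fun _ _ => c) n m = c := by
  simp [da]

theorem da_sum {ι : Type} (s : Finset ι) {ψ : ι → Λ → Λ → F} {C : ι → ℝ} (hψ : ∀ i ∈ s, ∀ c c', ‖ψ i c c'‖ ≤ C i) (n m : ℕ) :
    da μ a w (fun c c' => ∑ i ∈ s, ψ i c c') n m = ∑ i ∈ s, da μ a w (ψ i) n m := by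
  classical
  induction s using Finset.induction_on with
  | empty => simp [da]
  | insert i s hi ih =>
    simp only [Finset.sum_insert hi]
    have h1 : ∀ c c', ‖∑ j ∈ s, ψ j c c'‖ ≤ ∑ j ∈ s, C j := fun c c' =>
      (norm_sum_le _ _).trans (Finset.sum_le_sum fun j hj => hψ j (Finset.mem_insert_of_mem hj) c c')
    rw [da_add (hψ i (Finset.mem_insert_self i s)) h1, ih fun j hj => hψ j (Finset.mem_insert_of_mem hj)]

theorem da_mul (z : ℂ) (ψ : Λ → Λ → ℂ) (n m : ℕ) : da μ a w (fun c c' => z * ψ c c') n m = z * da μ a w ψ n m := by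
  simp only [da, integral_const_mul]

theorem da_mono {ψ φ : Λ → Λ → ℝ} (hψ : ∀ c c', ‖ψ c c'‖ ≤ C) (hφ : ∀ c c', ‖φ c c'‖ ≤ D) (h : ∀ c c', ψ c c' ≤ φ c c') (n m : ℕ) :
    da μ a w ψ n m ≤ da μ a w φ n m :=
  integral_mono (da_out hψ n m) (da_out hφ n m) fun _ => integral_mono (da_in (hψ _)) (da_in (hφ _)) fun _ => h _ _

theorem da_ofReal (ψ : Λ → Λ → ℝ) (n m : ℕ) : da μ a w (fun c c' => (ψ c c' : ℂ)) n m = ((da μ a w ψ n m : ℝ) : ℂ) := by
  simp only [da]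
  rw [← integral_complex_ofReal]
  refine integral_congr_ae (ae_of_all _ fun x => ?_)
  exact integral_complex_ofReal

end Da

section Off

variable {G1 X G Λ : Type} [Group G1] [TopologicalSpace G1] [IsTopologicalGroup G1] [SecondCountableTopology G1] [LocallyCompactSpace G1]
  [MeasurableSpace G1] [BorelSpace G1] [MeasurableSpace X] [MulAction G1 X]
  [MeasurableConstSMul G1 X] [Group G] [Group Λ] [Countable Λ] {μ : Measure X} [SMulInvariantMeasure G1 X μ]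
  [IsProbabilityMeasure μ] {a : Cocy G1 X Λ} {E : Emb Λ G} {w : G1} {j : Λ →* G1} {hm : Measure G1} {σ : X → G1}

/-- Everything that is used of the source. -/
structure DD (μ : Measure X) [SMulInvariantMeasure G1 X μ] [IsProbabilityMeasure μ] (a : Cocy G1 X Λ) (E : Emb Λ G) (w : G1)
    (j : Λ →* G1) (hm : Measure G1) (σ : X → G1) : Prop where
  hc : HC μ a.a j hm σ
  unq : Unq j σ
  h3 : Tendsto (fun g : G1 => μ {x | a.a g x ≠ 1}) (𝓝 1) (𝓝 0)
  inv : InvT μ a E.conj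
  fix : ∀ φ, vg μ a (adR E.conj) w φ = φ → ∀ g, vg μ a (adR E.conj) g φ = φ
  cell : ∀ᵐ g ∂hm, ∃ p l q : G1, g = p * l * q ∧ Tendsto (fun n : ℕ => w ^ n * p * (w ^ n)⁻¹) atTop (𝓝 1) ∧ w * l = l * w ∧
    Tendsto (fun n : ℕ => (w ^ n)⁻¹ * q * w ^ n) atTop (𝓝 1)

/-- **The off-diagonal terms.** -/
theorem off_diag (h : DD μ a E w j hm σ) (T : L2 G →L[ℂ] L2 G) {l l' : Λ} (hl : l ≠ l') :
    Tendsto (fun N => sa ℂ (da μ a w fun c c' => (inner ℂ (uv E (c * l' * c')) (T (uv E (c * l * c'))) : ℂ)) N) atTop (𝓝 0) := by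
  have hd : l⁻¹ * l' ≠ 1 := fun h1 => hl (inv_mul_eq_one.1 h1)
  have h1 := jf_tendsto (A0 := adR E.conj) (k := kT E T) (v0 := uv E (l⁻¹ * l')) h.hc h.unq (norm_kT_le E T) h.h3 h.fix h.cell
    (fun D hD φ hφ => by
      obtain ⟨c, rfl⟩ := h.inv φ hφ
      rw [inner_smul_left, xl_inner]
      have h2 : ∫ x, (inner ℂ (cst μ (GVN.dl 1 : L2 G) x) (xE μ (L2 G) D (cst μ (uv E (l⁻¹ * l'))) x) : ℂ) ∂μ = ∫ _, (0 : ℂ) ∂μ := by
        refine integral_congr_ae ?_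
        filter_upwards [cst_apply (μ := μ) (GVN.dl 1 : L2 G), xE_apply hD (cst μ (uv E (l⁻¹ * l')) : XL μ (L2 G)),
          cst_apply (μ := μ) (uv E (l⁻¹ * l'))] with x h1 h2 h3
        rw [h1, h2, h3, inner_smul_right, inner_dl_left]
        have h4 : uv E (l⁻¹ * l') 1 = 0 := E.tr _ hd
        rw [h4, mul_zero]
      rw [h2, integral_zero, mul_zero]) l
  refine h1.congr fun N => ?_
  congr 1
  funext n m
  rw [jf, da]
  refine integral_congr_ae (ae_of_all _ fun x => ?_)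
  refine integral_congr_ae (ae_of_all _ fun z => ?_)
  show (inner ℂ (uv E (l⁻¹ * l')) (adR E.conj (a.a (w ^ m) z) (kT E T (a.a (w ^ n) x * l * a.a (w ^ m) z))) : ℂ) = _
  rw [inner_kT, mul_inv_cancel_left]

end Off

end Pool.Agent.Helper52.FQ
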