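import Pool.Agent.Helper78.BM.Erg
import Pool.Agent.Helper52.FQ.Avg

/-!
# Project FQ (MP_0f6f3f_an), layer D: the pointwise statement

`k : Λ → H` bounded, `A0` a unitary representation of `Λ` on `H`, `V = vg μ a A0`. `kv k h = (x ↦ k (a(h, x)))`, `kk k w g n m = V(w^m) (kv (w^n g w^m))`. Then
`kk (p g) ~ kk g` if `w^n p w^-n → 1`, `kk (g q) ~ V(q⁻¹) kk g` if `w^-n q w^n → 1`, and the square averages of `kk l` are asymptotically `V(w)`-invariant if `l` commutes with `w`.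
`kk_weak`: for `g = p l q` the square averages of `kk g` converge weakly to `0` on the orthogonal complement of the fixed vectors.
-/

set_option autoImplicit false
set_option linter.unusedSectionVars false

open MeasureTheory Filter Topology

namespace Pool.Agent.Helper52.FQ

open Pool.Agent.Helper84 Pool.Agent.Helper84.GN Pool.Agent.Helper84.GN.S3 Pool.Agent.Helper84.GN.S3.X
open Pool.Agent.Helper84.NI Pool.Agent.Helper84.GVN Pool.Agent.Helper90.RK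
open Pool.Agent.Helper96.RK Pool.Agent.Helper66.FR Pool.Agent.Helper84.FR Pool.Agent.Helper55.FR

section Vec

variable {G1 X Λ H : Type} [Group G1] [MeasurableSpace X] [MulAction G1 X]
  [MeasurableConstSMul G1 X] [Group Λ] [Countable Λ] {μ : Measure X} [SMulInvariantMeasure G1 X μ]
  [IsProbabilityMeasure μ] {a : Cocy G1 X Λ} [NormedAddCommGroup H] [InnerProductSpace ℂ H]

/-- The vector `x ↦ k (a(h, x))`. -/
noncomputable def kv (μ : Measure X) (a : Cocy G1 X Λ) (k : Λ → H) (h : G1) : XL μ H := sv μ fun x => k (a.a h x)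

/-- The vector `V(w^m) (kv (w^n g w^m))`. -/
noncomputable def kk (μ : Measure X) [SMulInvariantMeasure G1 X μ] (a : Cocy G1 X Λ) (A0 : Λ →* (H ≃ₗᵢ[ℂ] H)) (k : Λ → H) (w g : G1)
    (n m : ℕ) : XL μ H := vg μ a A0 (w ^ m) (kv μ a k (w ^ n * g * w ^ m))

variable {k : Λ → H} {C : ℝ}

theorem kv_apply (hk : ∀ l, ‖k l‖ ≤ C) (h : G1) : ∀ᵐ x ∂μ, kv μ a k h x = k (a.a h x) :=
  sv_apply (memLp_bdd (sm_mea (fun l => a.meas h l) k) fun _ => hk _)

theorem norm_kv_le (hk : ∀ l, ‖k l‖ ≤ C) (h : G1) : ‖kv μ a k h‖ ≤ C :=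
  norm_sv_le ((norm_nonneg _).trans (hk 1)) fun _ => hk _

theorem norm_kk_le (A0 : Λ →* (H ≃ₗᵢ[ℂ] H)) (hk : ∀ l, ‖k l‖ ≤ C) (w g : G1) (n m : ℕ) : ‖kk μ a A0 k w g n m‖ ≤ C := by
  rw [kk, norm_vg]
  exact norm_kv_le hk _

/-- Two bounded functions which agree off a small set. -/
theorem norm_sub_le_of {φ ψ : XL μ H} (hφ : ∀ᵐ x ∂μ, ‖φ x‖ ≤ C) (hψ : ∀ᵐ x ∂μ, ‖ψ x‖ ≤ C) {B : Set X} (hB : MeasurableSet B)
    (h : ∀ᵐ x ∂μ, x ∉ B → φ x = ψ x) : ‖φ - ψ‖ ^ 2 ≤ (2 * C) ^ 2 * (μ B).toReal := by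
  rw [xl_norm_sq]
  have h1 : ∀ᵐ x ∂μ, ‖(φ - ψ) x‖ ^ 2 ≤ B.indicator (fun _ => (2 * C) ^ 2) x := by
    filter_upwards [Lp.coeFn_sub φ ψ, hφ, hψ, h] with x e1 e2 e3 e4
    rw [e1, Pi.sub_apply]
    by_cases hx : x ∈ B
    · rw [Set.indicator_of_mem hx]
      refine pow_le_pow_left₀ (norm_nonneg _) ((norm_sub_le _ _).trans ?_) 2
      linarith
    · rw [Set.indicator_of_notMem hx, e4 hx, sub_self, norm_zero]
      norm_num
  calc ∫ x, ‖(φ - ψ) x‖ ^ 2 ∂μ ≤ ∫ x, B.indicator (fun _ => (2 * C) ^ 2) x ∂μ :=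
        integral_mono_ae (xl_int _) ((integrable_const _).indicator hB) h1
    _ = (2 * C) ^ 2 * (μ B).toReal := by
        rw [integral_indicator hB, integral_const, smul_eq_mul, mul_comm, measureReal_restrict_apply_univ, measureReal_def]

/-- The measure of the set where the cocycle is not trivial. -/
noncomputable def dl (μ : Measure X) (a : Cocy G1 X Λ) (g : G1) : ℝ := (μ {x | a.a g x ≠ 1}).toReal

theorem kv_left (hk : ∀ l, ‖k l‖ ≤ C) (p h : G1) : ‖kv μ a k (p * h) - kv μ a k h‖ ^ 2 ≤ (2 * C) ^ 2 * dl μ a p := by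
  have hm : MeasurableSet {x : X | a.a p x ≠ 1} := (a.meas p 1).compl
  have e : μ {x : X | a.a p (h • x) ≠ 1} = μ {x | a.a p x ≠ 1} :=
    (measurePreserving_smul h μ).measure_preimage hm.nullMeasurableSet
  rw [dl, ← e]
  refine norm_sub_le_of ?_ ?_ ((measurable_const_smul h) hm) ?_
  · filter_upwards [kv_apply (μ := μ) (a := a) hk (p * h)] with x hx
    rw [hx]
    exact hk _
  · filter_upwards [kv_apply (μ := μ) (a := a) hk h] with x hx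
    rw [hx]
    exact hk _
  · filter_upwards [kv_apply (μ := μ) (a := a) hk (p * h), kv_apply (μ := μ) (a := a) hk h] with x h1 h2 hx
    have h3 : a.a p (h • x) = 1 := not_not.1 hx
    rw [h1, h2, a.mul, h3, one_mul]

theorem kv_right (A0 : Λ →* (H ≃ₗᵢ[ℂ] H)) (hk : ∀ l, ‖k l‖ ≤ C) (h q : G1) :
    ‖kv μ a k (h * q) - vg μ a A0 q⁻¹ (kv μ a k h)‖ ^ 2 ≤ (2 * C) ^ 2 * dl μ a q := by
  have hm : MeasurableSet {x : X | a.a q x ≠ 1} := (a.meas q 1).compl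
  have h0 : ∀ᵐ x ∂μ, vg μ a A0 q⁻¹ (kv μ a k h) x = A0 (a.a q⁻¹ (q • x)) (k (a.a h (q • x))) := by
    filter_upwards [vg_apply a A0 q⁻¹ (kv μ a k h),
      (measurePreserving_smul q μ).quasiMeasurePreserving.ae (kv_apply (μ := μ) (a := a) hk h)] with x h1 h2
    rw [h1, inv_inv, h2]
  refine norm_sub_le_of ?_ ?_ hm ?_
  · filter_upwards [kv_apply (μ := μ) (a := a) hk (h * q)] with x hx
    rw [hx]
    exact hk _
  · filter_upwards [h0] with x hx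
    rw [hx, LinearIsometryEquiv.norm_map]
    exact hk _
  · filter_upwards [kv_apply (μ := μ) (a := a) hk (h * q), h0] with x h1 h2 hx
    have h3 : a.a q x = 1 := not_not.1 hx
    have h4 : a.a q⁻¹ (q • x) = 1 := by
      have h5 := a.mul q⁻¹ q x
      rw [inv_mul_cancel, a.one, h3, mul_one] at h5
      exact h5.symm
    rw [h1, h2, a.mul, h3, h4, mul_one, map_one]
    rfl

theorem kk_left (A0 : Λ →* (H ≃ₗᵢ[ℂ] H)) (hk : ∀ l, ‖k l‖ ≤ C) (w p g : G1) (n m : ℕ) :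
    ‖kk μ a A0 k w (p * g) n m - kk μ a A0 k w g n m‖ ^ 2 ≤ (2 * C) ^ 2 * dl μ a (w ^ n * p * (w ^ n)⁻¹) := by
  have e : w ^ n * (p * g) * w ^ m = w ^ n * p * (w ^ n)⁻¹ * (w ^ n * g * w ^ m) := by group
  rw [kk, kk, ← map_sub, norm_vg, e]
  exact kv_left hk _ _

theorem kk_right (A0 : Λ →* (H ≃ₗᵢ[ℂ] H)) (hk : ∀ l, ‖k l‖ ≤ C) (w g q : G1) (n m : ℕ) :
    ‖kk μ a A0 k w (g * q) n m - vg μ a A0 q⁻¹ (kk μ a A0 k w g n m)‖ ^ 2 ≤
      (2 * C) ^ 2 * dl μ a ((w ^ m)⁻¹ * q * w ^ m) := by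
  have e : w ^ n * (g * q) * w ^ m = w ^ n * g * w ^ m * ((w ^ m)⁻¹ * q * w ^ m) := by group
  have e2 : vg μ a A0 q⁻¹ (kk μ a A0 k w g n m) =
      vg μ a A0 (w ^ m) (vg μ a A0 ((w ^ m)⁻¹ * q * w ^ m)⁻¹ (kv μ a k (w ^ n * g * w ^ m))) := by
    rw [kk, ← vg_mul, ← vg_mul]
    congr 2
    group
  rw [e2, kk, ← map_sub, norm_vg, e]
  exact kv_right A0 hk _ _

theorem kk_comm (A0 : Λ →* (H ≃ₗᵢ[ℂ] H)) (k : Λ → H) {w l : G1} (hl : w * l = l * w) (n m : ℕ) :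
    vg μ a A0 w (kk μ a A0 k w l (n + 1) m) = kk μ a A0 k w l n (m + 1) := by
  have h1 : ∀ n : ℕ, w ^ n * l = l * w ^ n := fun n => (Commute.pow_left (show Commute w l from hl) n).eq
  rw [kk, kk, ← vg_mul, ← pow_succ']
  congr 2
  rw [h1, h1, mul_assoc, mul_assoc, ← pow_add, ← pow_add]
  congr 2
  ring

end Vec

section Weak

variable {G1 X Λ H : Type} [Group G1] [TopologicalSpace G1] [IsTopologicalGroup G1] [MeasurableSpace X] [MulAction G1 X]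
  [MeasurableConstSMul G1 X] [Group Λ] [Countable Λ] {μ : Measure X} [SMulInvariantMeasure G1 X μ]
  [IsProbabilityMeasure μ] {a : Cocy G1 X Λ} [NormedAddCommGroup H] [InnerProductSpace ℂ H] [CompleteSpace H]
  {A0 : Λ →* (H ≃ₗᵢ[ℂ] H)} {k : Λ → H} {C : ℝ} {w : G1}

theorem dl_tendsto (h3 : Tendsto (fun g : G1 => μ {x | a.a g x ≠ 1}) (𝓝 1) (𝓝 0)) {f : ℕ → G1} (hf : Tendsto f atTop (𝓝 1)) :
    Tendsto (fun n => dl μ a (f n)) atTop (𝓝 0) := by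
  have h := (ENNReal.tendsto_toReal ENNReal.zero_ne_top).comp (h3.comp hf)
  rwa [ENNReal.toReal_zero] at h

private theorem small52 {D : ℕ → ℝ} (hD : Tendsto D atTop (𝓝 0)) {ε : ℝ} (hε : 0 < ε) :
    ∃ M : ℕ, ∀ n, M ≤ n → ∀ v : H, ‖v‖ ^ 2 ≤ (2 * C) ^ 2 * D n → ‖v‖ ≤ ε := by
  have h1 : Tendsto (fun n => (2 * C) ^ 2 * D n) atTop (𝓝 0) := by
    have h := hD.const_mul ((2 * C) ^ 2)
    rwa [mul_zero] at h
  obtain ⟨M, hM⟩ := eventually_atTop.1 (h1.eventually (gt_mem_nhds (pow_pos hε 2)))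
  refine ⟨M, fun n hn v hv => ?_⟩
  exact (sq_le_sq₀ (norm_nonneg _) hε.le).1 (hv.trans (hM n hn).le)

theorem sa_left (hk : ∀ l, ‖k l‖ ≤ C) (h3 : Tendsto (fun g : G1 => μ {x | a.a g x ≠ 1}) (𝓝 1) (𝓝 0)) {p : G1}
    (hp : Tendsto (fun n : ℕ => w ^ n * p * (w ^ n)⁻¹) atTop (𝓝 1)) (g : G1) :
    Tendsto (fun N => sa ℂ (kk μ a A0 k w (p * g)) N - sa ℂ (kk μ a A0 k w g) N) atTop (𝓝 0) := by
  have h := sa_zero ℂ (f := fun n m => kk μ a A0 k w (p * g) n m - kk μ a A0 k w g n m) (fun ε hε => by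
    obtain ⟨M, hM⟩ := small52 (H := XL μ H) (dl_tendsto h3 hp) (C := C) hε
    exact ⟨M, fun n m hn _ => hM n hn _ (kk_left A0 hk w p g n m)⟩)
  refine h.congr fun N => ?_
  rw [sa_sub]

theorem sa_right (hk : ∀ l, ‖k l‖ ≤ C) (h3 : Tendsto (fun g : G1 => μ {x | a.a g x ≠ 1}) (𝓝 1) (𝓝 0)) {q : G1}
    (hq : Tendsto (fun n : ℕ => (w ^ n)⁻¹ * q * w ^ n) atTop (𝓝 1)) (g : G1) :
    Tendsto (fun N => sa ℂ (kk μ a A0 k w (g * q)) N - vg μ a A0 q⁻¹ (sa ℂ (kk μ a A0 k w g) N)) atTop (𝓝 0) := by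
  have h := sa_zero ℂ (f := fun n m => kk μ a A0 k w (g * q) n m - vg μ a A0 q⁻¹ (kk μ a A0 k w g n m)) (fun ε hε => by
    obtain ⟨M, hM⟩ := small52 (H := XL μ H) (dl_tendsto h3 hq) (C := C) hε
    exact ⟨M, fun n m _ hm => hM m hm _ (kk_right A0 hk w g q n m)⟩)
  refine h.congr fun N => ?_
  rw [sa_sub, sa_clm]

theorem sa_comm (hk : ∀ l, ‖k l‖ ≤ C) {l : G1} (hl : w * l = l * w) :
    Tendsto (fun N => vg μ a A0 w (sa ℂ (kk μ a A0 k w l) N) - sa ℂ (kk μ a A0 k w l) N) atTop (𝓝 0) := by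
  have hb := norm_kk_le (μ := μ) (a := a) A0 hk w l
  rw [tendsto_zero_iff_norm_tendsto_zero]
  have h1 : Tendsto (fun N : ℕ => 4 * C / N) atTop (𝓝 0) := tendsto_const_div_atTop_nhds_zero_nat (4 * C)
  refine squeeze_zero' (Eventually.of_forall fun _ => norm_nonneg _) ?_ h1
  filter_upwards [eventually_ne_atTop 0] with N hN
  have e1 : vg μ a A0 w (sa ℂ (fun n m => kk μ a A0 k w l (n + 1) m) N) = sa ℂ (fun n m => kk μ a A0 k w l n (m + 1)) N := by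
    rw [sa_clm]
    congr 1
    funext n m
    exact kk_comm A0 k hl n m
  have e2 := norm_sa_succ_left ℂ hb hN
  have e3 := norm_sa_succ_right ℂ hb hN
  have e4 : vg μ a A0 w (sa ℂ (kk μ a A0 k w l) N) - sa ℂ (kk μ a A0 k w l) N =
      -(vg μ a A0 w (sa ℂ (fun n m => kk μ a A0 k w l (n + 1) m) N - sa ℂ (kk μ a A0 k w l) N)) +
        (sa ℂ (fun n m => kk μ a A0 k w l n (m + 1)) N - sa ℂ (kk μ a A0 k w l) N) := by
    rw [map_sub, e1]
    abel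
  rw [e4]
  refine (norm_add_le _ _).trans ?_
  rw [norm_neg, norm_vg]
  have e5 : (4 : ℝ) * C / N = 2 * C / N + 2 * C / N := by ring
  rw [e5]
  exact add_le_add e2 e3

/-- **The mean ergodic argument.** -/
theorem weak_of_inv {K : Type} [NormedAddCommGroup K] [InnerProductSpace ℂ K] [CompleteSpace K] {σ : K →L[ℂ] K} {S : ℕ → K}
    (hS : ∀ N, ‖S N‖ ≤ C) (h : Tendsto (fun N => σ (S N) - S N) atTop (𝓝 0)) {η : K} (hη : ∀ φ, σ φ = φ → inner ℂ φ η = (0 : ℂ)) :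
    Tendsto (fun N => (inner ℂ η (S N) : ℂ)) atTop (𝓝 0) := by
  have hC : 0 ≤ C := (norm_nonneg _).trans (hS 0)
  set T : K →L[ℂ] K := σ - 1 with hT
  have hmem : η ∈ T.kerᗮ := by
    rw [Submodule.mem_orthogonal]
    intro φ hφ
    refine hη φ ?_
    have h1 : σ φ - φ = 0 := hφ
    exact sub_eq_zero.1 h1
  rw [ContinuousLinearMap.orthogonal_ker] at hmem
  rw [Metric.tendsto_atTop]
  intro ε hε
  have hpos : 0 < ε / (2 * (C + 1)) := by positivity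
  obtain ⟨y, hy, hd⟩ := Metric.mem_closure_iff.1 (show η ∈ closure ((ContinuousLinearMap.adjoint T).range : Set K) from hmem) _ hpos
  obtain ⟨φ, rfl⟩ := hy
  have h2 : Tendsto (fun N => (inner ℂ φ (σ (S N) - S N) : ℂ)) atTop (𝓝 0) := by
    have h := (tendsto_const_nhds (x := φ)).inner h (𝕜 := ℂ)
    rwa [inner_zero_right] at h
  obtain ⟨M, hM⟩ := Metric.tendsto_atTop.1 h2 (ε / 2) (half_pos hε)
  refine ⟨M, fun N hN => ?_⟩
  have h3 := hM N hN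
  rw [dist_zero_right] at h3 ⊢
  have e1 : (inner ℂ (ContinuousLinearMap.adjoint T φ) (S N) : ℂ) = inner ℂ φ (σ (S N) - S N) := by
    rw [ContinuousLinearMap.adjoint_inner_left]
    rfl
  have e2 : (inner ℂ η (S N) : ℂ) = inner ℂ (η - ContinuousLinearMap.adjoint T φ) (S N) + inner ℂ φ (σ (S N) - S N) := by
    rw [← e1, inner_sub_left]
    ring
  rw [e2]
  have h4 : ‖(inner ℂ (η - ContinuousLinearMap.adjoint T φ) (S N) : ℂ)‖ ≤ ε / 2 := by
    refine (norm_inner_le_norm _ _).trans ?_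
    rw [dist_eq_norm] at hd
    calc ‖η - (ContinuousLinearMap.adjoint T) φ‖ * ‖S N‖ ≤ ε / (2 * (C + 1)) * (C + 1) :=
          mul_le_mul hd.le ((hS N).trans (by linarith)) (norm_nonneg _) hpos.le
      _ = ε / 2 := by field_simp
  calc ‖(inner ℂ (η - ContinuousLinearMap.adjoint T φ) (S N) : ℂ) + inner ℂ φ (σ (S N) - S N)‖ ≤ _ := norm_add_le _ _
    _ < ε / 2 + ε / 2 := add_lt_add_of_le_of_lt h4 h3
    _ = ε := add_halves ε

/-- **Pointwise weak convergence.** -/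
theorem kk_weak (hk : ∀ l, ‖k l‖ ≤ C) (h3 : Tendsto (fun g : G1 => μ {x | a.a g x ≠ 1}) (𝓝 1) (𝓝 0))
    (hfix : ∀ φ, vg μ a A0 w φ = φ → ∀ g, vg μ a A0 g φ = φ) {p l q : G1}
    (hp : Tendsto (fun n : ℕ => w ^ n * p * (w ^ n)⁻¹) atTop (𝓝 1)) (hl : w * l = l * w)
    (hq : Tendsto (fun n : ℕ => (w ^ n)⁻¹ * q * w ^ n) atTop (𝓝 1)) {η : XL μ H}
    (hη : ∀ φ, (∀ g, vg μ a A0 g φ = φ) → inner ℂ φ η = (0 : ℂ)) :
    Tendsto (fun N => (inner ℂ η (sa ℂ (kk μ a A0 k w (p * l * q)) N) : ℂ)) atTop (𝓝 0) := by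
  have h1 := sa_left (A0 := A0) hk h3 hp (l * q)
  have h2 := sa_right (A0 := A0) hk h3 hq l
  have h4 := sa_comm (A0 := A0) (μ := μ) (a := a) hk hl
  have h5 : Tendsto (fun N => (inner ℂ (vg μ a A0 q η) (sa ℂ (kk μ a A0 k w l) N) : ℂ)) atTop (𝓝 0) := by
    refine weak_of_inv (fun N => norm_sa_le ℂ (norm_kk_le A0 hk w l) N) h4 fun φ hφ => ?_
    have h6 := hfix φ hφ
    have h7 : (inner ℂ φ (vg μ a A0 q η) : ℂ) = inner ℂ (vg μ a A0 q φ) (vg μ a A0 q η) := by rw [h6 q]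
    rw [h7]
    have h8 := (vgR μ a A0 q).inner_map_map φ η
    rw [vgR_apply, vgR_apply] at h8
    rw [h8]
    exact hη φ h6
  have h6 : Tendsto (fun N => (inner ℂ η (sa ℂ (kk μ a A0 k w (p * (l * q))) N - sa ℂ (kk μ a A0 k w (l * q)) N) : ℂ)) atTop (𝓝 0) := by
    have h := (tendsto_const_nhds (x := η)).inner h1 (𝕜 := ℂ)
    rwa [inner_zero_right] at h
  have h7 : Tendsto (fun N => (inner ℂ η (sa ℂ (kk μ a A0 k w (l * q)) N - vg μ a A0 q⁻¹ (sa ℂ (kk μ a A0 k w l) N)) : ℂ))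
      atTop (𝓝 0) := by
    have h := (tendsto_const_nhds (x := η)).inner h2 (𝕜 := ℂ)
    rwa [inner_zero_right] at h
  have h8 := (h6.add h7).add h5
  rw [add_zero, add_zero] at h8
  refine h8.congr fun N => ?_
  have e1 : (inner ℂ (vg μ a A0 q η) (sa ℂ (kk μ a A0 k w l) N) : ℂ) =
      inner ℂ η (vg μ a A0 q⁻¹ (sa ℂ (kk μ a A0 k w l) N)) := by
    have h9 := (vgR μ a A0 q).inner_map_map η (vg μ a A0 q⁻¹ (sa ℂ (kk μ a A0 k w l) N))
    rw [vgR_apply, vgR_apply, ← vg_mul, mul_inv_cancel, vg_one] at h9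
    exact h9
  rw [e1, ← inner_add_right, ← inner_add_right, mul_assoc]
  congr 1
  abel

end Weak

end Pool.Agent.Helper52.FQ
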