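import Pool.Agent.Helper52.FQ.WDiag
import Pool.Agent.Helper3.FQ.Win

/-!
# Project FQ (MP_0f6f3f_an), layer D: `DWin` of helper3's file `Win`
-/

set_option autoImplicit false
set_option linter.unusedSectionVars false

open MeasureTheory Filter Topology
open scoped ENNReal ComplexConjugate

namespace Pool.Agent.Helper52.FQ.Win

open Pool.Agent.Helper84 Pool.Agent.Helper84.GN Pool.Agent.Helper84.GN.S3 Pool.Agent.Helper84.GN.S3.X
open Pool.Agent.Helper84.NI Pool.Agent.Helper84.GVN Pool.Agent.Helper90.RK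
open Pool.Agent.Helper96.RK Pool.Agent.Helper66.FR Pool.Agent.Helper84.FR Pool.Agent.Helper55.FR
open Pool.Agent.Helper78.BM (FullE)
open Pool.Agent.Helper52.FQ

variable {G1 X G Λ : Type} [Group G1] [TopologicalSpace G1] [IsTopologicalGroup G1] [SecondCountableTopology G1] [LocallyCompactSpace G1]
  [MeasurableSpace G1] [BorelSpace G1] [MeasurableSpace X] [MulAction G1 X]
  [MeasurableConstSMul G1 X] [Group G] [Group Λ] [Countable Λ] {μ : Measure X} [SMulInvariantMeasure G1 X μ]
  [IsProbabilityMeasure μ] {a : Cocy G1 X Λ} {E : Emb Λ G} {w : G1} {j : Λ →* G1} {hm : Measure G1} {σ : X → G1}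

/-- **Diagonality for windows.** -/
theorem dwin (h : DD μ a E w j hm σ) (hF : FullE E) : Pool.Agent.Helper3.FQ.DWin μ a E w :=
  fun S s _ _ hp hq => diag_dl hp hq h hF S s

end Pool.Agent.Helper52.FQ.Win
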